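import Pool.Agent.Q320.OS.Proj

/-! Definitions (oscillation, oscillating spectrum, complemented subspaces of `C[0,1]`) and the
abstract criterion. -/

set_option autoImplicit false

namespace Pool.Agent.Q320.OS

open Set

/-- The oscillation of `f` on `I(t, d) = [0,1] ∩ [t - d, t + d]`. -/
noncomputable def osc (f : C(Icc (0 : ℝ) 1, ℝ)) (t d : ℝ) : ℝ :=
  sSup {r | ∃ s s' : Icc (0 : ℝ) 1, |(s : ℝ) - t| ≤ d ∧ |(s' : ℝ) - t| ≤ d ∧ r = |f s - f s'|}

/-- `Γ_X(t)`: the supremum of the `a ≥ 0` such that for every `d > 0` some `f ∈ X` of norm one has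
oscillation larger than `a` on `I(t, d)` (`0` if there is no such `a`). -/
noncomputable def Gam (X : Submodule ℝ C(Icc (0 : ℝ) 1, ℝ)) (t : ℝ) : ℝ :=
  sSup {a | 0 ≤ a ∧ ∀ d > 0, ∃ f ∈ X, ‖f‖ = 1 ∧ a < osc f t d}

/-- The oscillating spectrum `Ω(X)`. -/
def Spec (X : Submodule ℝ C(Icc (0 : ℝ) 1, ℝ)) : Set ℝ := {t | t ∈ Icc (0 : ℝ) 1 ∧ 0 < Gam X t}

/-- `X` is the range of a bounded linear projection of `C[0,1]`. -/
def Complemented (X : Submodule ℝ C(Icc (0 : ℝ) 1, ℝ)) : Prop :=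
  ∃ P : C(Icc (0 : ℝ) 1, ℝ) →L[ℝ] C(Icc (0 : ℝ) 1, ℝ),
    (∀ f, P (P f) = P f) ∧ {g | ∃ f, P f = g} = (X : Set C(Icc (0 : ℝ) 1, ℝ))

lemma osc_bdd (f : C(Icc (0 : ℝ) 1, ℝ)) (t d : ℝ) : BddAbove {r | ∃ s s' : Icc (0 : ℝ) 1,
    |(s : ℝ) - t| ≤ d ∧ |(s' : ℝ) - t| ≤ d ∧ r = |f s - f s'|} := by
  refine ⟨2 * ‖f‖, ?_⟩
  rintro r ⟨s, s', -, -, rfl⟩
  have h1 := ContinuousMap.norm_coe_le_norm f s
  have h2 := ContinuousMap.norm_coe_le_norm f s'
  rw [Real.norm_eq_abs] at h1 h2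
  rw [abs_le] at h1 h2 ⊢
  constructor <;> linarith [h1.1, h1.2, h2.1, h2.2]

lemma le_osc (f : C(Icc (0 : ℝ) 1, ℝ)) (t d : ℝ) (s s' : Icc (0 : ℝ) 1)
    (h : |(s : ℝ) - t| ≤ d) (h' : |(s' : ℝ) - t| ≤ d) : |f s - f s'| ≤ osc f t d :=
  le_csSup (osc_bdd f t d) ⟨s, s', h, h', rfl⟩

lemma osc_le (f : C(Icc (0 : ℝ) 1, ℝ)) (t d : ℝ) {c : ℝ} (hc : 0 ≤ c)
    (h : ∀ s s' : Icc (0 : ℝ) 1, |(s : ℝ) - t| ≤ d → |(s' : ℝ) - t| ≤ d → |f s - f s'| ≤ c) :
    osc f t d ≤ c := by
  apply Real.sSup_le _ hc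
  rintro r ⟨s, s', h1, h2, rfl⟩
  exact h s s' h1 h2

lemma osc_le_norm (f : C(Icc (0 : ℝ) 1, ℝ)) (t d : ℝ) : osc f t d ≤ 2 * ‖f‖ := by
  refine osc_le f t d (by positivity) fun s s' _ _ => ?_
  have h1 := ContinuousMap.norm_coe_le_norm f s
  have h2 := ContinuousMap.norm_coe_le_norm f s'
  rw [Real.norm_eq_abs] at h1 h2
  rw [abs_le] at h1 h2 ⊢
  constructor <;> linarith [h1.1, h1.2, h2.1, h2.2]

section abstract

variable {ι : Type*} (blk : ι → ℕ)

/-- The sum of the absolute values of the coefficients in the block `n`. -/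
noncomputable def A (n : ℕ) (y : ι →₀ ℝ) : ℝ := ∑ i ∈ y.support, if blk i = n then |y i| else 0

lemma A_nonneg (n : ℕ) (y : ι →₀ ℝ) : 0 ≤ A blk n y := by
  refine Finset.sum_nonneg fun i _ => ?_
  split_ifs
  · exact abs_nonneg _
  · exact le_rfl

lemma A_le (n : ℕ) (y : ι →₀ ℝ) : A blk n y ≤ ∑ i ∈ y.support, |y i| := by
  refine Finset.sum_le_sum fun i _ => ?_
  split_ifs
  · exact le_rfl
  · exact abs_nonneg _

lemma sum_le_A {m : ℕ} (e : Fin m → ι) (he : Function.Injective e) {b : ℕ}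
    (hb : ∀ j, blk (e j) = b) (y : ι →₀ ℝ) : ∑ j, |y (e j)| ≤ A blk b y := by
  classical
  have h1 : ∑ j, |y (e j)| = ∑ i ∈ Finset.univ.image e, if blk i = b then |y i| else 0 := by
    rw [Finset.sum_image (fun a _ c _ h => he h)]
    refine Finset.sum_congr rfl fun j _ => ?_
    rw [if_pos (hb j)]
  rw [h1, A]
  have h2 : ∑ i ∈ y.support, (if blk i = b then |y i| else 0) =
      ∑ i ∈ y.support ∪ Finset.univ.image e, (if blk i = b then |y i| else 0) := by
    refine Finset.sum_subset Finset.subset_union_left fun i _ hi => ?_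
    rw [Finsupp.notMem_support_iff] at hi
    rw [hi, abs_zero, ite_self]
  rw [h2]
  refine Finset.sum_le_sum_of_subset_of_nonneg Finset.subset_union_right fun i _ _ => ?_
  split_ifs
  · exact abs_nonneg _
  · exact le_rfl

lemma coord_le (i : ι) (y : ι →₀ ℝ) : |y i| ≤ A blk (blk i) y := by
  have h := sum_le_A blk (fun _ : Fin 1 => i) (fun a b _ => Subsingleton.elim a b)
    (b := blk i) (fun _ => rfl) y
  simpa using h

variable (F : ι → C(Icc (0 : ℝ) 1, ℝ))

lemma T_apply (y : ι →₀ ℝ) (x : Icc (0 : ℝ) 1) :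
    (Finsupp.linearCombination ℝ F y) x = ∑ i ∈ y.support, y i * F i x := by
  rw [Finsupp.linearCombination_apply, Finsupp.sum]
  simp

variable (φ ψ : ι → C(Icc (0 : ℝ) 1, ℝ))

lemma lower (hφ : ∀ (y : ι →₀ ℝ) (n : ℕ), ∃ x, ∑ i ∈ y.support, y i * φ i x = A blk n y)
    (hψ : ∀ (y : ι →₀ ℝ) (K : ℝ), (∀ n, A blk n y ≤ K) →
      ∀ x, |∑ i ∈ y.support, y i * ψ i x| ≤ K / 2)
    (y : ι →₀ ℝ) (n : ℕ) :
    A blk n y ≤ 2 * ‖Finsupp.linearCombination ℝ (fun i => φ i + ψ i) y‖ := by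
  have hbd : BddAbove (range fun n => A blk n y) := by
    refine ⟨∑ i ∈ y.support, |y i|, ?_⟩
    rintro r ⟨n, rfl⟩
    exact A_le blk n y
  set K : ℝ := ⨆ n, A blk n y with hK
  have h1 : ∀ n, A blk n y ≤ K := fun n => le_ciSup hbd n
  have h2 : K ≤ ‖Finsupp.linearCombination ℝ (fun i => φ i + ψ i) y‖ + K / 2 := by
    refine ciSup_le fun n => ?_
    obtain ⟨x, hx⟩ := hφ y n
    have h3 := hψ y K h1 x
    have h4 := ContinuousMap.norm_coe_le_norm
      (Finsupp.linearCombination ℝ (fun i => φ i + ψ i) y) x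
    rw [T_apply, Real.norm_eq_abs] at h4
    have h5 : ∑ i ∈ y.support, y i * (φ i + ψ i) x =
        ∑ i ∈ y.support, y i * φ i x + ∑ i ∈ y.support, y i * ψ i x := by
      rw [← Finset.sum_add_distrib]
      refine Finset.sum_congr rfl fun i _ => ?_
      rw [ContinuousMap.add_apply]; ring
    rw [h5, hx] at h4
    rw [abs_le] at h3 h4
    linarith [h3.1, h4.2]
  have := h1 n
  linarith

theorem main_abs (M : Set ℝ) (hM : M ⊆ Icc 0 1)
    (hφ : ∀ (y : ι →₀ ℝ) (n : ℕ), ∃ x, ∑ i ∈ y.support, y i * φ i x = A blk n y)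
    (hψ : ∀ (y : ι →₀ ℝ) (K : ℝ), (∀ n, A blk n y ≤ K) →
      ∀ x, |∑ i ∈ y.support, y i * ψ i x| ≤ K / 2)
    (hnorm : ∀ i, ‖φ i + ψ i‖ ≤ 2)
    (hE : ∀ t ∈ Icc (0 : ℝ) 1, t ∉ M → ∀ a > 0, ∃ d > 0, ∀ (y : ι →₀ ℝ) (K : ℝ),
      (∀ n, A blk n y ≤ K) → ∀ s s' : Icc (0 : ℝ) 1, |(s : ℝ) - t| ≤ d → |(s' : ℝ) - t| ≤ d →
      |∑ i ∈ y.support, y i * (φ i + ψ i) s - ∑ i ∈ y.support, y i * (φ i + ψ i) s'| ≤ a * K)
    (hO : ∀ t ∈ M, ∃ ε > 0, ∀ d > 0, ∃ i, ∃ s s' : Icc (0 : ℝ) 1, |(s : ℝ) - t| ≤ d ∧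
      |(s' : ℝ) - t| ≤ d ∧ ε ≤ |(φ i + ψ i) s - (φ i + ψ i) s'|)
    (hB : ∀ m : ℕ, ∃ e : Fin m → ι, Function.Injective e ∧ ∃ b, ∀ j, blk (e j) = b) :
    ∃ X : Submodule ℝ C(Icc (0 : ℝ) 1, ℝ), IsClosed (X : Set C(Icc (0 : ℝ) 1, ℝ)) ∧
      ¬ Complemented X ∧ Spec X = M := by
  classical
  set T := Finsupp.linearCombination ℝ (fun i => φ i + ψ i) with hT
  have hlow : ∀ y n, A blk n y ≤ 2 * ‖T y‖ := lower blk φ ψ hφ hψ
  have hFmem : ∀ i, φ i + ψ i ∈ LinearMap.range T := by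
    intro i
    refine ⟨Finsupp.single i 1, ?_⟩
    rw [hT, Finsupp.linearCombination_single, one_smul]
  refine ⟨(LinearMap.range T).topologicalClosure, Submodule.isClosed_topologicalClosure _,
    ?_, ?_⟩
  · -- not complemented
    rintro ⟨P, hPP, hPr⟩
    have hP1 : ∀ f, P f ∈ (LinearMap.range T).topologicalClosure := by
      intro f
      have : P f ∈ {g | ∃ f, P f = g} := ⟨f, rfl⟩
      rw [hPr] at this
      exact this
    have hP2 : ∀ f ∈ (LinearMap.range T).topologicalClosure, P f = f := by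
      intro f hf
      have : f ∈ {g | ∃ f, P f = g} := by rw [hPr]; exact hf
      obtain ⟨g, rfl⟩ := this
      exact hPP g
    have hinj : Function.Injective T := by
      rw [injective_iff_map_eq_zero]
      intro y hy
      ext i
      have h1 := coord_le blk i y
      have h2 := hlow y (blk i)
      rw [hy, norm_zero] at h2
      have h3 : |y i| ≤ 0 := by linarith
      simpa using abs_nonpos_iff.mp h3
    have hfun : ∀ i, ∃ c : C(Icc (0 : ℝ) 1, ℝ) →L[ℝ] ℝ, ∀ y, c (T y) = y i := by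
      intro i
      let eq := LinearEquiv.ofInjective T hinj
      let f0 : LinearMap.range T →ₗ[ℝ] ℝ := (Finsupp.lapply i).comp eq.symm.toLinearMap
      have hf0 : ∀ y, f0 (eq y) = y i := by
        intro y
        simp [f0]
      have hbound : ∀ x : LinearMap.range T, ‖f0 x‖ ≤ 2 * ‖x‖ := by
        intro x
        obtain ⟨y, rfl⟩ := eq.surjective x
        rw [hf0, Real.norm_eq_abs]
        have h1 := coord_le blk i y
        have h2 := hlow y (blk i)
        have h3 : ‖eq y‖ = ‖T y‖ := rfl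
        rw [h3]
        linarith
      obtain ⟨g, hg, -⟩ := exists_extension_norm_eq (LinearMap.range T)
        (f0.mkContinuous 2 hbound)
      refine ⟨g, fun y => ?_⟩
      have h4 := hg (eq y)
      have h5 : ((eq y : LinearMap.range T) : C(Icc (0 : ℝ) 1, ℝ)) = T y := rfl
      rw [h5] at h4
      rw [h4]
      exact hf0 y
    choose c hc using hfun
    obtain ⟨m, hm⟩ := exists_nat_gt ((8 * ‖P‖) ^ 2)
    have hm0 : 0 < m := by
      rcases Nat.eq_zero_or_pos m with h | h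
      · rw [h] at hm
        have := sq_nonneg (8 * ‖P‖)
        push_cast at hm
        linarith
      · exact h
    obtain ⟨e, he, b, hb⟩ := hB m
    have h := proj_bound (LinearMap.range T).topologicalClosure P hP1 hP2 hm0
      (fun j => φ (e j) + ψ (e j))
      (fun j => (LinearMap.range T).le_topologicalClosure (hFmem (e j)))
      (fun j => hnorm (e j)) (fun j => c (e j)) ?_ ?_
    · have h1 : (8 * ‖P‖) < Real.sqrt m := by
        rw [Real.lt_sqrt (by positivity)]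
        exact hm
      linarith
    · intro i j
      have h1 : T (Finsupp.single (e j) 1) = φ (e j) + ψ (e j) := by
        rw [hT, Finsupp.linearCombination_single, one_smul]
      rw [← h1, hc, Finsupp.single_apply]
      by_cases hij : i = j
      · rw [if_pos hij, if_pos (by rw [hij])]
      · rw [if_neg hij, if_neg (fun h => hij (he h).symm)]
    · intro f hf
      have hcl : IsClosed {f : C(Icc (0 : ℝ) 1, ℝ) | ∑ j, |c (e j) f| ≤ 2 * ‖f‖} := by
        apply isClosed_le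
        · fun_prop
        · fun_prop
      have hsub : ((LinearMap.range T : Submodule ℝ _) : Set C(Icc (0 : ℝ) 1, ℝ)) ⊆
          {f : C(Icc (0 : ℝ) 1, ℝ) | ∑ j, |c (e j) f| ≤ 2 * ‖f‖} := by
        rintro _ ⟨y, rfl⟩
        simp only [mem_ofPred_eq, hc]
        exact le_trans (sum_le_A blk e he hb y) (hlow y b)
      exact closure_minimal hsub hcl hf
  · -- spectrum
    ext t
    constructor
    · rintro ⟨ht, hG⟩
      by_contra htM
      have hle : Gam (LinearMap.range T).topologicalClosure t ≤ 0 := by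
        refine le_of_forall_pos_le_add fun a ha => ?_
        rw [zero_add]
        apply Real.sSup_le _ ha.le
        rintro a' ⟨_, ha'⟩
        obtain ⟨d, hd, hdE⟩ := hE t ht htM (a / 2) (by positivity)
        obtain ⟨f, hf, hf1, hfo⟩ := ha' d hd
        refine le_of_lt (lt_of_lt_of_le hfo ?_)
        refine osc_le f t d ha.le fun s s' hs hs' => ?_
        have hcl : IsClosed {f : C(Icc (0 : ℝ) 1, ℝ) | |f s - f s'| ≤ a * ‖f‖} := by
          apply isClosed_le
          · fun_prop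
          · fun_prop
        have hsub : ((LinearMap.range T : Submodule ℝ _) : Set C(Icc (0 : ℝ) 1, ℝ)) ⊆
            {f : C(Icc (0 : ℝ) 1, ℝ) | |f s - f s'| ≤ a * ‖f‖} := by
          rintro _ ⟨y, rfl⟩
          simp only [mem_ofPred_eq]
          have h1 := hdE y (2 * ‖T y‖) (hlow y) s s' hs hs'
          rw [hT, T_apply, T_apply]
          refine le_trans h1 (le_of_eq ?_)
          ring
        have h2 := closure_minimal hsub hcl hf
        simp only [mem_ofPred_eq, hf1, mul_one] at h2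
        exact h2
      linarith
    · intro htM
      refine ⟨hM htM, ?_⟩
      obtain ⟨ε, hε, hO'⟩ := hO t htM
      have hmem : ε / 4 ∈ {a | 0 ≤ a ∧ ∀ d > 0, ∃ f ∈ (LinearMap.range T).topologicalClosure,
          ‖f‖ = 1 ∧ a < osc f t d} := by
        refine ⟨by positivity, fun d hd => ?_⟩
        obtain ⟨i, s, s', hs, hs', hi⟩ := hO' d hd
        have hne : φ i + ψ i ≠ 0 := by
          intro h0
          rw [h0] at hi
          simp at hi
          linarith
        have hpos : 0 < ‖φ i + ψ i‖ := norm_pos_iff.mpr hne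
        refine ⟨(‖φ i + ψ i‖)⁻¹ • (φ i + ψ i), Submodule.smul_mem _ _
          ((LinearMap.range T).le_topologicalClosure (hFmem i)), ?_, ?_⟩
        · rw [norm_smul, norm_inv, norm_norm, inv_mul_cancel₀ hpos.ne']
        · refine lt_of_lt_of_le ?_ (le_osc _ t d s s' hs hs')
          rw [ContinuousMap.smul_apply, ContinuousMap.smul_apply, smul_eq_mul, smul_eq_mul,
            ← mul_sub, abs_mul, abs_of_pos (inv_pos.mpr hpos)]
          have h2 : (1 / 2 : ℝ) ≤ (‖φ i + ψ i‖)⁻¹ := by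
            rw [one_div]
            exact inv_anti₀ hpos (hnorm i)
          calc ε / 4 < (1 / 2) * ε := by linarith
            _ ≤ (‖φ i + ψ i‖)⁻¹ * |(φ i + ψ i) s - (φ i + ψ i) s'| :=
              mul_le_mul h2 hi hε.le (by positivity)
      have hbdd : BddAbove {a | 0 ≤ a ∧ ∀ d > 0, ∃ f ∈ (LinearMap.range T).topologicalClosure,
          ‖f‖ = 1 ∧ a < osc f t d} := by
        refine ⟨2, ?_⟩
        rintro a ⟨_, ha⟩
        obtain ⟨f, _, hf1, hfo⟩ := ha 1 one_pos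
        have := osc_le_norm f t 1
        rw [hf1] at this
        linarith
      have := le_csSup hbdd hmem
      change 0 < sSup _
      linarith

end abstract

end Pool.Agent.Q320.OS
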