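import Pool.Agent.Q320.OS.Rad

/-! The case of a spectrum containing an interval. -/

set_option autoImplicit false

namespace Pool.Agent.Q320.OS

open Set

variable (u : ℕ → ℕ → ℝ)

/-- The perturbations in the case of nonempty interior. -/
noncomputable def psiA (i : ℕ × ℕ × ℕ) : C(Icc (0 : ℝ) 1, ℝ) where
  toFun x := (1 / 2) ^ (i.1 + 1) * max 0 (1 - (i.2.2 + 1) * |(x : ℝ) - u i.1 i.2.1|)
  continuous_toFun := by fun_prop

lemma psiA_apply (i : ℕ × ℕ × ℕ) (x : Icc (0 : ℝ) 1) : psiA u i x =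
    (1 / 2) ^ (i.1 + 1) * max 0 (1 - (i.2.2 + 1) * |(x : ℝ) - u i.1 i.2.1|) := rfl

lemma max_lip (a b : ℝ) : |max 0 a - max 0 b| ≤ |a - b| := by
  rw [max_comm 0 a, max_comm 0 b]
  exact abs_max_sub_max_le_abs a b 0

lemma psiA_nonneg (i : ℕ × ℕ × ℕ) (x : Icc (0 : ℝ) 1) : 0 ≤ psiA u i x :=
  mul_nonneg (by positivity) (le_max_left _ _)

lemma psiA_le (i : ℕ × ℕ × ℕ) (x : Icc (0 : ℝ) 1) : psiA u i x ≤ (1 / 2) ^ (i.1 + 1) := by
  rw [psiA_apply]
  calc _ ≤ ((1 : ℝ) / 2) ^ (i.1 + 1) * 1 := by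
        refine mul_le_mul_of_nonneg_left (max_le zero_le_one ?_) (by positivity)
        have : 0 ≤ ((i.2.2 : ℝ) + 1) * |(x : ℝ) - u i.1 i.2.1| := by positivity
        linarith
    _ = _ := mul_one _

lemma psiA_le_half (i : ℕ × ℕ × ℕ) (x : Icc (0 : ℝ) 1) : psiA u i x ≤ 1 / 2 := by
  refine le_trans (psiA_le u i x) ?_
  rw [pow_succ]
  have : ((1 : ℝ) / 2) ^ i.1 ≤ 1 := pow_le_one₀ (by norm_num) (by norm_num)
  linarith

/-- block and digit -/
def blkA (_ : ℕ × ℕ × ℕ) : ℕ := 0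
/-- block and digit -/
def digA (i : ℕ × ℕ × ℕ) : ℕ := Nat.pair i.1 (Nat.pair i.2.1 i.2.2)

lemma injA (i i' : ℕ × ℕ × ℕ) (_ : blkA i = blkA i') (h2 : digA i = digA i') : i = i' := by
  obtain ⟨k, l, m⟩ := i
  obtain ⟨k', l', m'⟩ := i'
  simp only [digA, Nat.pair_eq_pair] at h2
  obtain ⟨rfl, rfl, rfl⟩ := h2
  rfl

lemma A_blkA (y : ℕ × ℕ × ℕ →₀ ℝ) : A blkA 0 y = ∑ i ∈ y.support, |y i| := by
  unfold A blkA
  simp

/-- high digits oscillate at every point of the cell -/
lemma osc_dig {t₀ v : ℝ} (hv : 0 < v) (hv1 : v ≤ 1)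
    (hI : ∀ u : ℝ, 0 ≤ u → u ≤ 1 → t₀ + v * u ∈ Icc (0 : ℝ) 1)
    {t : ℝ} (hκ : 0 < cut (4 ^ (0 + 1) * ((t - t₀) / v))) {d : ℝ} (hd : 0 < d) :
    ∃ J : ℕ, ∀ j ≥ J, ∃ s s' : Icc (0 : ℝ) 1, |(s : ℝ) - t| ≤ d ∧ |(s' : ℝ) - t| ≤ d ∧
      cut (4 ^ (0 + 1) * ((t - t₀) / v)) ≤ R t₀ v 0 j s - R t₀ v 0 j s' := by
  set z := 4 ^ (0 + 1) * ((t - t₀) / v) with hz
  have hz4 := cut_pos hκ
  obtain ⟨δ, hδ, hδ'⟩ := Metric.continuousAt_iff.mp (cut_cont.continuousAt (x := z)) (cut z / 2)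
    (by positivity)
  have hm : 0 < min δ (min (min (z - 1) (4 - z)) d) :=
    lt_min hδ (lt_min (lt_min (by linarith [hz4.1]) (by linarith [hz4.2])) hd)
  obtain ⟨J, hJ⟩ := pow_unbounded_of_one_lt (1 / (min δ (min (min (z - 1) (4 - z)) d)))
    (by norm_num : (1 : ℝ) < 8)
  refine ⟨J, fun j hj => ?_⟩
  have h8 : (1 : ℝ) / 8 ^ j < min δ (min (min (z - 1) (4 - z)) d) := by
    rw [div_lt_iff₀ (by positivity)]
    rw [div_lt_iff₀ hm] at hJ
    have h3 : (8 : ℝ) ^ J ≤ 8 ^ j := pow_le_pow_right₀ (by norm_num) hj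
    nlinarith
  have key : ∀ r : ℝ, 0 ≤ r → r ≤ 1 → ∃ s : Icc (0 : ℝ) 1, |(s : ℝ) - t| ≤ d ∧
      cut z / 2 ≤ cut (4 ^ (0 + 1) * (((s : ℝ) - t₀) / v)) ∧
      R t₀ v 0 j s = cut (4 ^ (0 + 1) * (((s : ℝ) - t₀) / v)) * w r := by
    intro r hr0 hr1
    set z' := 2 + (⌊8 ^ j * (z - 2)⌋ + r) / 8 ^ j with hz'
    have hp : (0 : ℝ) < 8 ^ j := by positivity
    have hdiff : |z' - z| ≤ 1 / 8 ^ j := by
      have h1 := Int.floor_le ((8 : ℝ) ^ j * (z - 2))
      have h2 := Int.lt_floor_add_one ((8 : ℝ) ^ j * (z - 2))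
      have h3 : z' - z = ((⌊8 ^ j * (z - 2)⌋ : ℝ) + r - 8 ^ j * (z - 2)) / 8 ^ j := by
        rw [hz']
        field_simp
        ring
      rw [h3, abs_div, abs_of_pos hp]
      refine div_le_div_of_nonneg_right ?_ hp.le
      rw [abs_le]
      constructor <;> linarith
    have hlt : |z' - z| < min δ (min (min (z - 1) (4 - z)) d) := lt_of_le_of_lt hdiff h8
    have hl1 : |z' - z| < δ := lt_of_lt_of_le hlt (min_le_left _ _)
    have hl2 : |z' - z| < z - 1 := lt_of_lt_of_le hlt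
      (le_trans (min_le_right _ _) (le_trans (min_le_left _ _) (min_le_left _ _)))
    have hl3 : |z' - z| < 4 - z := lt_of_lt_of_le hlt
      (le_trans (min_le_right _ _) (le_trans (min_le_left _ _) (min_le_right _ _)))
    have hl4 : |z' - z| < d := lt_of_lt_of_le hlt
      (le_trans (min_le_right _ _) (min_le_right _ _))
    rw [abs_lt] at hl2 hl3
    obtain ⟨s, hs, hsz⟩ := pt hv.ne' hI 0 (z := z') (by linarith [hl2.1]) (by linarith [hl3.2])
    refine ⟨s, ?_, ?_, ?_⟩
    · have h1 : t = t₀ + v * (z / 4 ^ (0 + 1)) := by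
        rw [hz]
        field_simp
        ring
      have h2 : (s : ℝ) - t = v * ((z' - z) / 4) := by
        rw [hs, h1]
        ring
      rw [h2, abs_mul, abs_div, abs_of_pos hv, abs_of_pos (by norm_num : (0 : ℝ) < 4)]
      have h3 : |z' - z| / 4 ≤ d := by
        have := abs_nonneg (z' - z)
        linarith
      calc v * (|z' - z| / 4) ≤ 1 * (|z' - z| / 4) :=
            mul_le_mul_of_nonneg_right hv1 (by positivity)
        _ ≤ d := by rw [one_mul]; exact h3
    · rw [hsz]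
      have h1 := hδ' (x := z') (by rw [Real.dist_eq]; exact hl1)
      rw [Real.dist_eq, abs_lt] at h1
      linarith [h1.1]
    · rw [R_apply, hsz]
      congr 1
      have h1 : (8 : ℝ) ^ j * (z' - 2) = ((⌊8 ^ j * (z - 2)⌋ : ℤ) : ℝ) + r := by
        rw [hz']
        field_simp
        ring
      rw [h1, w_int]
  obtain ⟨s, hs1, hs2, hs3⟩ := key (1 / 8) (by norm_num) (by norm_num)
  obtain ⟨s', hs1', hs2', hs3'⟩ := key (5 / 8) (by norm_num) (by norm_num)
  refine ⟨s, s', hs1, hs1', ?_⟩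
  rw [hs3, hs3', w_one (by norm_num) (by norm_num), w_neg (by norm_num) (by norm_num)]
  linarith

theorem caseA (M : Set ℝ) (hM : M ⊆ Icc 0 1) (C : ℕ → Set ℝ) (hC : ∀ k, IsClosed (C k))
    (hMC : M = ⋃ k, C k) (huC : ∀ k l, u k l ∈ C k)
    (hud : ∀ k, ∀ t ∈ C k, ∀ d > 0, ∃ l, |u k l - t| ≤ d)
    {t₀ v : ℝ} (hv : 0 < v) (hv1 : v ≤ 1) (hI : ∀ r : ℝ, 0 ≤ r → r ≤ 1 → t₀ + v * r ∈ M) :
    ∃ X : Submodule ℝ C(Icc (0 : ℝ) 1, ℝ), IsClosed (X : Set C(Icc (0 : ℝ) 1, ℝ)) ∧
      ¬ Complemented X ∧ Spec X = M := by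
  classical
  have hI' : ∀ r : ℝ, 0 ≤ r → r ≤ 1 → t₀ + v * r ∈ Icc (0 : ℝ) 1 := fun r h0 h1 => hM (hI r h0 h1)
  refine main_abs blkA (fun i => R t₀ v (blkA i) (digA i)) (psiA u) M hM
    (fun y n => hφ blkA digA injA hv.ne' hI' y n) ?_ ?_ ?_ ?_ ?_
  · intro y K hK x
    have h0 := hK 0
    rw [A_blkA] at h0
    calc |∑ i ∈ y.support, y i * psiA u i x| ≤ ∑ i ∈ y.support, |y i * psiA u i x| :=
          Finset.abs_sum_le_sum_abs _ _
      _ ≤ ∑ i ∈ y.support, |y i| * (1 / 2) := by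
          refine Finset.sum_le_sum fun i _ => ?_
          rw [abs_mul, abs_of_nonneg (psiA_nonneg u i x)]
          exact mul_le_mul_of_nonneg_left (psiA_le_half u i x) (abs_nonneg _)
      _ = (∑ i ∈ y.support, |y i|) * (1 / 2) := by rw [Finset.sum_mul]
      _ ≤ K / 2 := by linarith
  · intro i
    rw [ContinuousMap.norm_le _ (by norm_num)]
    intro x
    rw [Real.norm_eq_abs, ContinuousMap.add_apply, abs_le]
    have h1 := abs_le.mp (R_le_one t₀ v (blkA i) (digA i) x)
    have h2 := psiA_nonneg u i x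
    have h3 := psiA_le_half u i x
    constructor <;> linarith [h1.1, h1.2]
  · intro t ht htM a ha
    -- the Rademacher parts vanish near `t`
    obtain ⟨d1, hd1, hd1'⟩ : ∃ d1 > 0, ∀ x : Icc (0 : ℝ) 1, |(x : ℝ) - t| ≤ d1 → ∀ j,
        R t₀ v 0 j x = 0 := by
      have hout : t < t₀ ∨ t₀ + v < t := by
        by_contra hc
        push Not at hc
        apply htM
        have h1 : t = t₀ + v * ((t - t₀) / v) := by field_simp; ring
        rw [h1]
        apply hI
        · apply div_nonneg _ hv.le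
          linarith [hc.1]
        · rw [div_le_one hv]
          linarith [hc.2]
      rcases hout with h | h
      · refine ⟨t₀ - t, by linarith, fun x hx j => ?_⟩
        rw [abs_le] at hx
        rw [R_apply, cut_eq_zero, zero_mul]
        left
        have h1 : ((x : ℝ) - t₀) / v ≤ 0 := div_nonpos_of_nonpos_of_nonneg (by linarith [hx.2]) hv.le
        norm_num
        linarith
      · refine ⟨t - (t₀ + v), by linarith, fun x hx j => ?_⟩
        rw [abs_le] at hx
        rw [R_apply, cut_eq_zero, zero_mul]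
        right
        have h1 : 1 ≤ ((x : ℝ) - t₀) / v := by
          rw [one_le_div hv]
          linarith [hx.1]
        norm_num
        linarith
    obtain ⟨k0, hk0⟩ := exists_pow_lt_of_lt_one ha (show (1 / 2 : ℝ) < 1 by norm_num)
    obtain ⟨δ, hδ, hδ'⟩ : ∃ δ > 0, ∀ k < k0, ∀ c ∈ C k, δ ≤ |t - c| := by
      have h1 : ∀ᶠ x in nhds t, ∀ k ∈ Finset.range k0, x ∉ C k := by
        rw [Filter.eventually_all_finset]
        intro k _
        have htC : t ∉ C k := fun h => htM (by rw [hMC]; exact mem_iUnion.mpr ⟨k, h⟩)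
        exact (hC k).isOpen_compl.mem_nhds htC
      rw [Metric.eventually_nhds_iff] at h1
      obtain ⟨δ, hδ, h⟩ := h1
      refine ⟨δ, hδ, fun k hk c hc => ?_⟩
      by_contra hlt
      push Not at hlt
      refine h (y := c) ?_ k (Finset.mem_range.mpr hk) hc
      rw [Real.dist_eq, abs_sub_comm]
      exact hlt
    set d := min d1 (min (δ / 2) (a * δ / 4)) with hdd
    have hdpos : 0 < d := lt_min hd1 (lt_min (by positivity) (by positivity))
    have hψosc : ∀ i, ∀ s s' : Icc (0 : ℝ) 1, |(s : ℝ) - t| ≤ d → |(s' : ℝ) - t| ≤ d →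
        |psiA u i s - psiA u i s'| ≤ a := by
      intro i s s' hs hs'
      by_cases hk : k0 ≤ i.1
      · have h1 := psiA_nonneg u i s
        have h2 := psiA_nonneg u i s'
        have h3 := psiA_le u i s
        have h4 := psiA_le u i s'
        have h5 : ((1 : ℝ) / 2) ^ (i.1 + 1) ≤ (1 / 2) ^ k0 :=
          pow_le_pow_of_le_one (by norm_num) (by norm_num) (by omega)
        rw [abs_le]
        constructor <;> linarith
      · push Not at hk
        have hc := hδ' i.1 hk (u i.1 i.2.1) (huC _ _)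
        have hdδ : d ≤ δ / 2 := le_trans (min_le_right _ _) (min_le_left _ _)
        have hda : d ≤ a * δ / 4 := le_trans (min_le_right _ _) (min_le_right _ _)
        have hfar : ∀ s : Icc (0 : ℝ) 1, |(s : ℝ) - t| ≤ d → δ / 2 ≤ |(s : ℝ) - u i.1 i.2.1| := by
          intro s hs
          have h1 : |t - u i.1 i.2.1| ≤ |t - s| + |(s : ℝ) - u i.1 i.2.1| := abs_sub_le _ _ _
          rw [abs_sub_comm t s] at h1
          linarith
        by_cases hm : 1 ≤ ((i.2.2 : ℝ) + 1) * (δ / 2)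
        · have hz : ∀ s : Icc (0 : ℝ) 1, |(s : ℝ) - t| ≤ d → psiA u i s = 0 := by
            intro s hs
            rw [psiA_apply, max_eq_left, mul_zero]
            have h1 : ((i.2.2 : ℝ) + 1) * (δ / 2) ≤ (i.2.2 + 1) * |(s : ℝ) - u i.1 i.2.1| :=
              mul_le_mul_of_nonneg_left (hfar s hs) (by positivity)
            linarith
          rw [hz s hs, hz s' hs', sub_zero, abs_zero]
          exact ha.le
        · push Not at hm
          rw [psiA_apply, psiA_apply, ← mul_sub, abs_mul, abs_of_pos (by positivity)]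
          have h1 : |max 0 (1 - ((i.2.2 : ℝ) + 1) * |(s : ℝ) - u i.1 i.2.1|) -
              max 0 (1 - ((i.2.2 : ℝ) + 1) * |(s' : ℝ) - u i.1 i.2.1|)| ≤
              (i.2.2 + 1) * |(s : ℝ) - s'| := by
            refine le_trans (max_lip _ _) ?_
            have e1 : (1 - ((i.2.2 : ℝ) + 1) * |(s : ℝ) - u i.1 i.2.1|) -
                (1 - ((i.2.2 : ℝ) + 1) * |(s' : ℝ) - u i.1 i.2.1|) =
                (i.2.2 + 1) * (|(s' : ℝ) - u i.1 i.2.1| - |(s : ℝ) - u i.1 i.2.1|) := by ring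
            rw [e1, abs_mul, abs_of_pos (by positivity)]
            refine mul_le_mul_of_nonneg_left ?_ (by positivity)
            refine le_trans (abs_abs_sub_abs_le _ _) (le_of_eq ?_)
            rw [sub_sub_sub_cancel_right, abs_sub_comm]
          have h2 : |(s : ℝ) - s'| ≤ 2 * d := by
            have h3 : |(s : ℝ) - s'| ≤ |(s : ℝ) - t| + |t - s'| := abs_sub_le _ _ _
            rw [abs_sub_comm t s'] at h3
            linarith
          have h4 : ((1 : ℝ) / 2) ^ (i.1 + 1) ≤ 1 := pow_le_one₀ (by norm_num) (by norm_num)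
          have h5 : ((i.2.2 : ℝ) + 1) * |(s : ℝ) - s'| ≤ a := by
            have h6 : ((i.2.2 : ℝ) + 1) * |(s : ℝ) - s'| ≤ (i.2.2 + 1) * (2 * (a * δ / 4)) :=
              mul_le_mul_of_nonneg_left (by linarith) (by positivity)
            have h7 : ((i.2.2 : ℝ) + 1) * (2 * (a * δ / 4)) = a * ((i.2.2 + 1) * (δ / 2)) := by ring
            rw [h7] at h6
            nlinarith
          calc _ ≤ 1 * |max 0 (1 - ((i.2.2 : ℝ) + 1) * |(s : ℝ) - u i.1 i.2.1|) -
              max 0 (1 - ((i.2.2 : ℝ) + 1) * |(s' : ℝ) - u i.1 i.2.1|)| :=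
                mul_le_mul_of_nonneg_right h4 (abs_nonneg _)
            _ ≤ a := by rw [one_mul]; linarith
    refine ⟨d, hdpos, fun y K hK s s' hs hs' => ?_⟩
    have h0 := hK 0
    rw [A_blkA] at h0
    rw [← Finset.sum_sub_distrib]
    calc _ ≤ ∑ i ∈ y.support, |y i * (R t₀ v (blkA i) (digA i) + psiA u i) s -
          y i * (R t₀ v (blkA i) (digA i) + psiA u i) s'| := Finset.abs_sum_le_sum_abs _ _
      _ ≤ ∑ i ∈ y.support, |y i| * a := by
          refine Finset.sum_le_sum fun i _ => ?_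
          rw [← mul_sub, abs_mul]
          refine mul_le_mul_of_nonneg_left ?_ (abs_nonneg _)
          have e1 : R t₀ v (blkA i) (digA i) s = 0 :=
            hd1' s (le_trans hs (min_le_left _ _)) (digA i)
          have e2 : R t₀ v (blkA i) (digA i) s' = 0 :=
            hd1' s' (le_trans hs' (min_le_left _ _)) (digA i)
          rw [ContinuousMap.add_apply, ContinuousMap.add_apply, e1, e2, zero_add, zero_add]
          exact hψosc i s s' hs hs'
      _ = (∑ i ∈ y.support, |y i|) * a := by rw [Finset.sum_mul]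
      _ ≤ a * K := by nlinarith
  · intro t ht
    have ht1 := hM ht
    have ht2 := ht
    rw [hMC] at ht2
    obtain ⟨k, hk⟩ := mem_iUnion.mp ht2
    rcases (cut_nonneg (4 ^ (0 + 1) * ((t - t₀) / v))).eq_or_lt with hκ | hκ
    · -- the cutoff vanishes at `t`
      set ε : ℝ := (1 / 2) ^ (k + 1) with hε
      have hεp : 0 < ε := by positivity
      refine ⟨ε / 2, by positivity, fun d hd => ?_⟩
      have hcont : Continuous fun x : ℝ => cut (4 ^ (0 + 1) * ((x - t₀) / v)) :=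
        cut_cont.comp (by fun_prop)
      obtain ⟨δ, hδ, hδ'⟩ := Metric.continuousAt_iff.mp (hcont.continuousAt (x := t)) (ε / 8)
        (by positivity)
      set d1 := min (min d 1) (δ / 2) with hd1
      have hd1p : 0 < d1 := lt_min (lt_min hd one_pos) (by positivity)
      have hsm : ∀ x : Icc (0 : ℝ) 1, |(x : ℝ) - t| ≤ d1 → ∀ j, |R t₀ v 0 j x| ≤ ε / 8 := by
        intro x hx j
        have h1 := hδ' (x := (x : ℝ)) (by
          rw [Real.dist_eq]
          have : d1 ≤ δ / 2 := min_le_right _ _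
          linarith)
        rw [Real.dist_eq, ← hκ, sub_zero, abs_of_nonneg (cut_nonneg _)] at h1
        exact le_trans (R_abs _ _ _ _ _) h1.le
      obtain ⟨l, hl⟩ := hud k t hk (d1 / 4) (by positivity)
      obtain ⟨m, hm⟩ := exists_nat_gt (2 / d1)
      have hu01 : u k l ∈ Icc (0 : ℝ) 1 := hM (by rw [hMC]; exact mem_iUnion.mpr ⟨k, huC k l⟩)
      have hd11 : d1 ≤ 1 := le_trans (min_le_left _ _) (min_le_right _ _)
      have hd1d : d1 ≤ d := le_trans (min_le_left _ _) (min_le_left _ _)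
      obtain ⟨x', hx'0, hx'u⟩ : ∃ x' : ℝ, x' ∈ Icc (0 : ℝ) 1 ∧ |x' - u k l| = d1 / 2 := by
        by_cases h : u k l ≤ 1 / 2
        · refine ⟨u k l + d1 / 2, ⟨by linarith [hu01.1], by linarith⟩, ?_⟩
          rw [add_sub_cancel_left, abs_of_pos (by positivity)]
        · refine ⟨u k l - d1 / 2, ⟨by linarith, by linarith [hu01.2]⟩, ?_⟩
          rw [sub_sub_cancel_left, abs_neg, abs_of_pos (by positivity)]
      have hx't : |x' - t| ≤ d1 := by
        have h1 : |x' - t| ≤ |x' - u k l| + |u k l - t| := abs_sub_le _ _ _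
        linarith
      have hut : |u k l - t| ≤ d1 := by linarith
      refine ⟨(k, l, m), ⟨u k l, hu01⟩, ⟨x', hx'0⟩, le_trans hut hd1d, le_trans hx't hd1d, ?_⟩
      have e1 : psiA u (k, l, m) ⟨u k l, hu01⟩ = ε := by
        rw [psiA_apply]
        simp [hε]
      have e2 : psiA u (k, l, m) ⟨x', hx'0⟩ = 0 := by
        rw [psiA_apply]
        simp only
        rw [hx'u, max_eq_left, mul_zero]
        rw [div_lt_iff₀ hd1p] at hm
        nlinarith
      have h1 := abs_le.mp (hsm ⟨u k l, hu01⟩ hut (digA (k, l, m)))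
      have h2 := abs_le.mp (hsm ⟨x', hx'0⟩ hx't (digA (k, l, m)))
      rw [ContinuousMap.add_apply, ContinuousMap.add_apply, e1, e2]
      refine le_trans ?_ (le_abs_self _)
      have hb : blkA (k, l, m) = 0 := rfl
      rw [hb]
      linarith [h1.1, h2.2]
    · -- the digits oscillate
      set κ := cut (4 ^ (0 + 1) * ((t - t₀) / v)) with hκd
      obtain ⟨k', hk'⟩ := exists_pow_lt_of_lt_one (show (0 : ℝ) < κ / 2 by positivity)
        (show (1 / 2 : ℝ) < 1 by norm_num)
      refine ⟨κ / 2, by positivity, fun d hd => ?_⟩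
      obtain ⟨J, hJ⟩ := osc_dig hv hv1 hI' hκ hd
      have hbig : J ≤ digA (k', 0, J) := by
        unfold digA
        simp only
        exact le_trans (Nat.right_le_pair 0 J) (Nat.right_le_pair _ _)
      obtain ⟨s, s', hs, hs', hss⟩ := hJ _ hbig
      refine ⟨(k', 0, J), s, s', hs, hs', ?_⟩
      have h1 := psiA_nonneg u (k', 0, J) s
      have h2 := psiA_le u (k', 0, J) s'
      have h3 : ((1 : ℝ) / 2) ^ (k' + 1) ≤ (1 / 2) ^ k' :=
        pow_le_pow_of_le_one (by norm_num) (by norm_num) (by omega)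
      simp only at h2
      rw [ContinuousMap.add_apply, ContinuousMap.add_apply]
      refine le_trans ?_ (le_abs_self _)
      have hb : blkA (k', 0, J) = 0 := rfl
      rw [hb]
      linarith
  · intro m
    refine ⟨fun j => (0, 0, (j : ℕ)), ?_, 0, fun j => rfl⟩
    intro j j' h
    simp only [Prod.mk.injEq, true_and] at h
    exact Fin.ext h

end Pool.Agent.Q320.OS
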