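import Pool.Agent.Q320.OS.Rad

/-! The case of a spectrum with empty interior. -/

set_option autoImplicit false

namespace Pool.Agent.Q320.OS

open Set

lemma near_nonzero {t₀ v t : ℝ} (hv : v ≠ 0) (ht : t ≠ t₀) :
    ∃ d > 0, ∃ N : ℕ, ∀ n ≥ N, ∀ j, ∀ x : Icc (0 : ℝ) 1, |(x : ℝ) - t| ≤ d →
      R t₀ v n j x = 0 := by
  have hδ : 0 < |t - t₀| / 2 := by
    have := abs_pos.mpr (sub_ne_zero.mpr ht)
    linarith
  have hvp : 0 < |v| := abs_pos.mpr hv
  obtain ⟨N, hN⟩ := pow_unbounded_of_one_lt (4 * |v| / (|t - t₀| / 2)) (by norm_num : (1 : ℝ) < 4)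
  refine ⟨|t - t₀| / 2, hδ, N, fun n hn j x hx => ?_⟩
  have h1 : |t - t₀| / 2 ≤ |(x : ℝ) - t₀| := by
    have h2 : |t - t₀| ≤ |t - x| + |(x : ℝ) - t₀| := abs_sub_le _ _ _
    rw [abs_sub_comm t x] at h2
    linarith
  have h2 : 4 ≤ |4 ^ (n + 1) * (((x : ℝ) - t₀) / v)| := by
    rw [abs_mul, abs_div, abs_of_pos (by positivity : (0 : ℝ) < 4 ^ (n + 1))]
    rw [← mul_div_assoc, le_div_iff₀ hvp]
    have h3 : (4 : ℝ) ^ N ≤ 4 ^ (n + 1) := pow_le_pow_right₀ (by norm_num) (by omega)
    rw [div_lt_iff₀ hδ] at hN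
    calc 4 * |v| ≤ 4 ^ N * (|t - t₀| / 2) := hN.le
      _ ≤ 4 ^ (n + 1) * |(x : ℝ) - t₀| := mul_le_mul h3 h1 hδ.le (by positivity)
  have h3 : cut (4 ^ (n + 1) * (((x : ℝ) - t₀) / v)) = 0 := by
    apply cut_eq_zero
    rcases le_abs.mp h2 with h | h
    · right; exact h
    · left; linarith
  rw [R_apply, h3, zero_mul]

/-- The index type: blocks of growing size. -/
abbrev Idx := Σ p : ℕ × ℕ, Fin (Nat.pair p.1 p.2 + 1)

variable (C : ℕ → Set ℝ)

/-- The perturbations in the case of empty interior. -/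
noncomputable def psiB (i : Idx) : C(Icc (0 : ℝ) 1, ℝ) where
  toFun x := if (i.2 : ℕ) = 0 then (1 / 2) ^ (i.1.1 + 2) *
    cut (4 ^ i.1.2 * Metric.infDist (x : ℝ) (C i.1.1)) else 0
  continuous_toFun := by
    split_ifs
    · apply Continuous.mul continuous_const
      apply cut_cont.comp
      apply Continuous.mul continuous_const
      exact (Metric.continuous_infDist_pt _).comp continuous_subtype_val
    · exact continuous_const

lemma psiB_apply (i : Idx) (x : Icc (0 : ℝ) 1) : psiB C i x = if (i.2 : ℕ) = 0 then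
    (1 / 2) ^ (i.1.1 + 2) * cut (4 ^ i.1.2 * Metric.infDist (x : ℝ) (C i.1.1)) else 0 := rfl

lemma psiB_nonneg (i : Idx) (x : Icc (0 : ℝ) 1) : 0 ≤ psiB C i x := by
  rw [psiB_apply]
  split_ifs
  · exact mul_nonneg (by positivity) (cut_nonneg _)
  · exact le_rfl

lemma sum_cut (N : ℕ) (δ : ℝ) : ∑ i ∈ Finset.range N, cut (4 ^ i * δ) ≤ 1 := by
  classical
  by_cases h : ∃ i ∈ Finset.range N, 0 < cut (4 ^ i * δ)
  · obtain ⟨i0, hi0, hpos⟩ := h
    obtain ⟨h1, h4⟩ := cut_pos hpos
    rw [Finset.sum_eq_single_of_mem i0 hi0]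
    · exact cut_le_one _
    · intro i _ hne
      have : (4 : ℝ) ^ i * δ = 4 ^ (i + 1) * ((4 ^ i0 * δ) / 4 ^ (i0 + 1)) := by
        field_simp
        ring
      rw [this]
      exact cut_other hne h1.le h4.le
  · push Not at h
    have : ∑ i ∈ Finset.range N, cut (4 ^ i * δ) ≤ ∑ i ∈ Finset.range N, (0 : ℝ) :=
      Finset.sum_le_sum h
    simp at this
    linarith

lemma geo (k0 N : ℕ) : ∑ k ∈ Finset.Ico k0 N, ((1 : ℝ) / 2) ^ (k + 2) ≤ (1 / 2) ^ (k0 + 1) := by
  rw [Finset.sum_Ico_eq_sum_range]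
  have h : ∀ m : ℕ, ∑ i ∈ Finset.range m, ((1 : ℝ) / 2) ^ (k0 + i + 2) =
      (1 / 2) ^ (k0 + 1) * (1 - (1 / 2) ^ m) := by
    intro m
    induction m with
    | zero => simp
    | succ m ih =>
      rw [Finset.sum_range_succ, ih]
      ring
  rw [h]
  have h1 : (0 : ℝ) < (1 / 2) ^ (N - k0) := by positivity
  have h2 : (0 : ℝ) < (1 / 2) ^ (k0 + 1) := by positivity
  nlinarith

lemma psum (S : Finset Idx) (k0 : ℕ) (hS : ∀ i ∈ S, k0 ≤ i.1.1) (x : Icc (0 : ℝ) 1) :
    ∑ i ∈ S, psiB C i x ≤ (1 / 2) ^ (k0 + 1) := by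
  classical
  set g : ℕ × ℕ → ℝ := fun p => (1 / 2) ^ (p.1 + 2) *
    cut (4 ^ p.2 * Metric.infDist (x : ℝ) (C p.1)) with hg
  have hg0 : ∀ p, 0 ≤ g p := fun p => mul_nonneg (by positivity) (cut_nonneg _)
  have h1 : ∑ i ∈ S, psiB C i x = ∑ i ∈ S.filter (fun i => (i.2 : ℕ) = 0), g i.1 := by
    rw [Finset.sum_filter]
    rfl
  have h2 : ∑ i ∈ S.filter (fun i => (i.2 : ℕ) = 0), g i.1 =
      ∑ p ∈ (S.filter (fun i => (i.2 : ℕ) = 0)).image (fun i => i.1), g p := by
    rw [Finset.sum_image]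
    rintro ⟨p, j⟩ hi ⟨p', j'⟩ hi' heq
    simp only [Finset.coe_filter, mem_ofPred_eq] at hi hi'
    simp only at heq
    subst heq
    have : j = j' := Fin.ext (by rw [hi.2, hi'.2])
    rw [this]
  set N := (S.sup fun i => max i.1.1 i.1.2) + 1 with hN
  have h3 : (S.filter (fun i => (i.2 : ℕ) = 0)).image (fun i => i.1) ⊆
      Finset.Ico k0 N ×ˢ Finset.range N := by
    intro p hp
    rw [Finset.mem_image] at hp
    obtain ⟨i, hi, rfl⟩ := hp
    rw [Finset.mem_filter] at hi
    have h4 : max i.1.1 i.1.2 ≤ S.sup fun i => max i.1.1 i.1.2 :=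
      Finset.le_sup (f := fun i : Idx => max i.1.1 i.1.2) hi.1
    have h5 := hS i hi.1
    have h6 := le_max_left i.1.1 i.1.2
    have h7 := le_max_right i.1.1 i.1.2
    rw [Finset.mem_product, Finset.mem_Ico, Finset.mem_range]
    refine ⟨⟨h5, ?_⟩, ?_⟩ <;> omega
  rw [h1, h2]
  calc _ ≤ ∑ p ∈ Finset.Ico k0 N ×ˢ Finset.range N, g p :=
        Finset.sum_le_sum_of_subset_of_nonneg h3 fun p _ _ => hg0 p
    _ = ∑ k ∈ Finset.Ico k0 N, ∑ i ∈ Finset.range N, g (k, i) := Finset.sum_product _ _ _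
    _ ≤ ∑ k ∈ Finset.Ico k0 N, ((1 : ℝ) / 2) ^ (k + 2) := by
        refine Finset.sum_le_sum fun k _ => ?_
        rw [hg]
        simp only
        rw [← Finset.mul_sum]
        calc _ ≤ ((1 : ℝ) / 2) ^ (k + 2) * 1 :=
              mul_le_mul_of_nonneg_left (sum_cut _ _) (by positivity)
          _ = _ := mul_one _
    _ ≤ _ := geo k0 N

lemma psiB_le (i : Idx) (x : Icc (0 : ℝ) 1) : psiB C i x ≤ 1 / 2 := by
  have h := psum C {i} 0 (fun _ _ => Nat.zero_le _) x
  simpa using h

/-- block and digit -/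
def blkB (i : Idx) : ℕ := Nat.pair i.1.1 i.1.2
/-- block and digit -/
def digB (i : Idx) : ℕ := i.2

lemma injB (i i' : Idx) (h1 : blkB i = blkB i') (h2 : digB i = digB i') : i = i' := by
  obtain ⟨⟨k, l⟩, j⟩ := i
  obtain ⟨⟨k', l'⟩, j'⟩ := i'
  simp only [blkB, Nat.pair_eq_pair] at h1
  obtain ⟨rfl, rfl⟩ := h1
  have : j = j' := Fin.ext h2
  rw [this]

lemma osc_finite (F : Idx → C(Icc (0 : ℝ) 1, ℝ)) {t : ℝ} (ht : t ∈ Icc (0 : ℝ) 1)
    (S : Finset Idx) {η : ℝ} (hη : 0 < η) : ∃ d > 0, ∀ i ∈ S, ∀ s s' : Icc (0 : ℝ) 1,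
      |(s : ℝ) - t| ≤ d → |(s' : ℝ) - t| ≤ d → |F i s - F i s'| ≤ η := by
  have h1 : ∀ᶠ x in nhds (⟨t, ht⟩ : Icc (0 : ℝ) 1), ∀ i ∈ S, |F i x - F i ⟨t, ht⟩| < η / 2 := by
    rw [Filter.eventually_all_finset]
    intro i _
    have h2 := (F i).continuous.tendsto ⟨t, ht⟩
    have h3 := Metric.tendsto_nhds.mp h2 (η / 2) (by positivity)
    simpa [Real.dist_eq] using h3
  rw [Metric.eventually_nhds_iff] at h1
  obtain ⟨d, hd, hd'⟩ := h1
  refine ⟨d / 2, by positivity, fun i hi s s' hs hs' => ?_⟩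
  have h2 := hd' (y := s) (by
    rw [Subtype.dist_eq, Real.dist_eq]; simp only; linarith) i hi
  have h3 := hd' (y := s') (by
    rw [Subtype.dist_eq, Real.dist_eq]; simp only; linarith) i hi
  rw [abs_lt] at h2 h3
  rw [abs_le]
  constructor <;> linarith [h2.1, h2.2, h3.1, h3.2]

theorem caseB (M : Set ℝ) (hM : M ⊆ Icc 0 1) (hC : ∀ k, IsClosed (C k)) (hMC : M = ⋃ k, C k)
    {t₀ : ℝ} (ht₀ : t₀ ∈ M) (hint : interior M = ∅) :
    ∃ X : Submodule ℝ C(Icc (0 : ℝ) 1, ℝ), IsClosed (X : Set C(Icc (0 : ℝ) 1, ℝ)) ∧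
      ¬ Complemented X ∧ Spec X = M := by
  classical
  have ht01 := hM ht₀
  obtain ⟨v, hv, hv1, hI⟩ : ∃ v : ℝ, v ≠ 0 ∧ |v| ≤ 1 ∧
      ∀ u : ℝ, 0 ≤ u → u ≤ 1 → t₀ + v * u ∈ Icc (0 : ℝ) 1 := by
    by_cases h : t₀ ≤ 1 / 2
    · refine ⟨1 / 2, by norm_num, by rw [abs_of_pos] <;> norm_num, fun u h0 h1 => ⟨?_, ?_⟩⟩ <;>
        linarith [ht01.1]
    · refine ⟨-1 / 2, by norm_num, by rw [abs_of_neg] <;> norm_num, fun u h0 h1 => ⟨?_, ?_⟩⟩ <;>
        linarith [ht01.2]
  have hK0 : ∀ (y : Idx →₀ ℝ) (K : ℝ), (∀ n, A blkB n y ≤ K) → 0 ≤ K := fun y K h =>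
    le_trans (A_nonneg blkB 0 y) (h 0)
  have hyK : ∀ (y : Idx →₀ ℝ) (K : ℝ), (∀ n, A blkB n y ≤ K) → ∀ i, |y i| ≤ K := fun y K h i =>
    le_trans (coord_le blkB i y) (h _)
  have htail : ∀ (y : Idx →₀ ℝ) (K : ℝ), (∀ n, A blkB n y ≤ K) → ∀ (S : Finset Idx) (k0 : ℕ),
      (∀ i ∈ S, k0 ≤ i.1.1) → ∀ x : Icc (0 : ℝ) 1,
      |∑ i ∈ S, y i * psiB C i x| ≤ K * (1 / 2) ^ (k0 + 1) := by
    intro y K hK S k0 hS x
    calc |∑ i ∈ S, y i * psiB C i x| ≤ ∑ i ∈ S, |y i * psiB C i x| :=
          Finset.abs_sum_le_sum_abs _ _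
      _ ≤ ∑ i ∈ S, K * psiB C i x := by
          refine Finset.sum_le_sum fun i _ => ?_
          rw [abs_mul, abs_of_nonneg (psiB_nonneg C i x)]
          exact mul_le_mul_of_nonneg_right (hyK y K hK i) (psiB_nonneg C i x)
      _ = K * ∑ i ∈ S, psiB C i x := by rw [Finset.mul_sum]
      _ ≤ _ := mul_le_mul_of_nonneg_left (psum C S k0 hS x) (hK0 y K hK)
  refine main_abs blkB (fun i => R t₀ v (blkB i) (digB i)) (psiB C) M hM
    (fun y n => hφ blkB digB injB hv hI y n) ?_ ?_ ?_ ?_ ?_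
  · intro y K hK x
    have := htail y K hK y.support 0 (fun _ _ => Nat.zero_le _) x
    simp at this
    linarith
  · intro i
    rw [ContinuousMap.norm_le _ (by norm_num)]
    intro x
    rw [Real.norm_eq_abs, ContinuousMap.add_apply, abs_le]
    have h1 := abs_le.mp (R_le_one t₀ v (blkB i) (digB i) x)
    have h2 := psiB_nonneg C i x
    have h3 := psiB_le C i x
    constructor <;> linarith [h1.1, h1.2]
  · intro t ht htM a ha
    have htt : t ≠ t₀ := fun h => htM (h ▸ ht₀)
    obtain ⟨d1, hd1, N1, hN1⟩ := near_nonzero (t₀ := t₀) (v := v) (t := t) hv htt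
    obtain ⟨k0, hk0⟩ := exists_pow_lt_of_lt_one (show (0 : ℝ) < a / 2 by positivity)
      (show (1 / 2 : ℝ) < 1 by norm_num)
    -- the small levels
    have hsmall : ∃ d2 > 0, ∃ i0 : ℕ, ∀ k < k0, ∀ l ≥ i0, ∀ x : Icc (0 : ℝ) 1,
        |(x : ℝ) - t| ≤ d2 → cut (4 ^ l * Metric.infDist (x : ℝ) (C k)) = 0 := by
      have : ∀ k, ∃ d2 > 0, ∃ i0 : ℕ, ∀ l ≥ i0, ∀ x : Icc (0 : ℝ) 1,
          |(x : ℝ) - t| ≤ d2 → cut (4 ^ l * Metric.infDist (x : ℝ) (C k)) = 0 := by
        intro k
        rcases (C k).eq_empty_or_nonempty with hemp | hne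
        · refine ⟨1, one_pos, 0, fun l _ x _ => ?_⟩
          rw [hemp, Metric.infDist_empty, mul_zero]
          exact cut_eq_zero (Or.inl zero_le_one)
        · have htC : t ∉ C k := fun h => htM (by rw [hMC]; exact mem_iUnion.mpr ⟨k, h⟩)
          have hpos : 0 < Metric.infDist t (C k) := ((hC k).notMem_iff_infDist_pos hne).mp htC
          obtain ⟨i0, hi0⟩ := pow_unbounded_of_one_lt (4 / (Metric.infDist t (C k) / 2))
            (by norm_num : (1 : ℝ) < 4)
          refine ⟨Metric.infDist t (C k) / 2, by positivity, i0, fun l hl x hx => ?_⟩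
          apply cut_eq_zero
          right
          have h1 : Metric.infDist t (C k) ≤ Metric.infDist (x : ℝ) (C k) + dist t x :=
            Metric.infDist_le_infDist_add_dist
          rw [Real.dist_eq, abs_sub_comm] at h1
          rw [div_lt_iff₀ (by positivity)] at hi0
          have h3 : (4 : ℝ) ^ i0 ≤ 4 ^ l := pow_le_pow_right₀ (by norm_num) hl
          calc (4 : ℝ) ≤ 4 ^ i0 * (Metric.infDist t (C k) / 2) := hi0.le
            _ ≤ 4 ^ l * Metric.infDist (x : ℝ) (C k) :=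
              mul_le_mul h3 (by linarith) (by positivity) (by positivity)
      choose d2 hd2 i0 hi0 using this
      clear hk0
      induction k0 with
      | zero => exact ⟨1, one_pos, 0, fun k hk => absurd hk (by omega)⟩
      | succ k0 ih =>
        obtain ⟨d3, hd3, j0, hj0⟩ := ih
        refine ⟨min d3 (d2 k0), lt_min hd3 (hd2 k0), max j0 (i0 k0), fun k hk l hl x hx => ?_⟩
        rcases Nat.lt_succ_iff_lt_or_eq.mp hk with h | h
        · exact hj0 k h l (le_trans (le_max_left _ _) hl) x (le_trans hx (min_le_left _ _))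
        · subst h
          exact hi0 k l (le_trans (le_max_right _ _) hl) x (le_trans hx (min_le_right _ _))
    obtain ⟨d2, hd2, i0, hi0⟩ := hsmall
    -- finite exceptional set
    set L := max N1 (max k0 i0) with hL
    let S : Finset Idx := (Finset.range L ×ˢ Finset.range L).sigma fun _ => Finset.univ
    have hS : ∀ i : Idx, i ∉ S → L ≤ i.1.1 ∨ L ≤ i.1.2 := by
      intro i hi
      by_contra hc
      push Not at hc
      apply hi
      simp only [S, Finset.mem_sigma, Finset.mem_product, Finset.mem_range, Finset.mem_univ,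
        and_true]
      exact hc
    have hη : (0 : ℝ) < a / (2 * (S.card + 1)) := by positivity
    obtain ⟨d3, hd3, hd3'⟩ := osc_finite (fun i => R t₀ v (blkB i) (digB i) + psiB C i) ht S hη
    refine ⟨min d1 (min d2 d3), lt_min hd1 (lt_min hd2 hd3), fun y K hK s s' hs hs' => ?_⟩
    have hbound : ∀ x : Icc (0 : ℝ) 1, |(x : ℝ) - t| ≤ min d1 (min d2 d3) →
        |∑ i ∈ y.support.filter (fun i => i ∉ S), y i *
          (R t₀ v (blkB i) (digB i) + psiB C i) x| ≤ K * (1 / 2) ^ (k0 + 1) := by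
      intro x hx
      have h1 : ∑ i ∈ y.support.filter (fun i => i ∉ S), y i *
          (R t₀ v (blkB i) (digB i) + psiB C i) x =
          ∑ i ∈ (y.support.filter (fun i => i ∉ S)).filter (fun i => k0 ≤ i.1.1),
            y i * psiB C i x := by
        rw [Finset.sum_filter (fun i : Idx => k0 ≤ i.1.1)]
        refine Finset.sum_congr rfl fun i hi => ?_
        rw [Finset.mem_filter] at hi
        have h2 := hS i hi.2
        have h3 : R t₀ v (blkB i) (digB i) x = 0 := by
          apply hN1 _ _ _ _ (le_trans hx (min_le_left _ _))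
          have h4 := Nat.left_le_pair i.1.1 i.1.2
          have h5 := Nat.right_le_pair i.1.1 i.1.2
          have h6 : N1 ≤ L := le_max_left _ _
          unfold blkB
          rcases h2 with h | h <;> omega
        rw [ContinuousMap.add_apply, h3, zero_add]
        split_ifs with h7
        · rfl
        · have h8 : L ≤ i.1.2 := by
            rcases h2 with h | h
            · have : k0 ≤ L := le_trans (le_max_left _ _) (le_max_right _ _)
              omega
            · exact h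
          have h9 : i0 ≤ L := le_trans (le_max_right _ _) (le_max_right _ _)
          rw [psiB_apply, hi0 i.1.1 (by omega) i.1.2 (by omega) x
            (le_trans hx (le_trans (min_le_right _ _) (min_le_left _ _)))]
          simp
      rw [h1]
      exact htail y K hK _ k0 (fun i hi => (Finset.mem_filter.mp hi).2) x
    have hsplit : ∀ x : Icc (0 : ℝ) 1, ∑ i ∈ y.support, y i *
        (R t₀ v (blkB i) (digB i) + psiB C i) x =
        ∑ i ∈ y.support.filter (fun i => i ∈ S), y i * (R t₀ v (blkB i) (digB i) + psiB C i) x +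
        ∑ i ∈ y.support.filter (fun i => i ∉ S), y i *
          (R t₀ v (blkB i) (digB i) + psiB C i) x := fun x =>
      (Finset.sum_filter_add_sum_filter_not _ _ _).symm
    have hfin : |∑ i ∈ y.support.filter (fun i => i ∈ S),
          y i * (R t₀ v (blkB i) (digB i) + psiB C i) s -
        ∑ i ∈ y.support.filter (fun i => i ∈ S),
          y i * (R t₀ v (blkB i) (digB i) + psiB C i) s'| ≤ K * (a / 2) := by
      rw [← Finset.sum_sub_distrib]
      calc _ ≤ ∑ i ∈ y.support.filter (fun i => i ∈ S),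
            |y i * (R t₀ v (blkB i) (digB i) + psiB C i) s -
              y i * (R t₀ v (blkB i) (digB i) + psiB C i) s'| := Finset.abs_sum_le_sum_abs _ _
        _ ≤ ∑ i ∈ y.support.filter (fun i => i ∈ S), K * (a / (2 * (S.card + 1))) := by
            refine Finset.sum_le_sum fun i hi => ?_
            rw [Finset.mem_filter] at hi
            rw [← mul_sub, abs_mul]
            refine mul_le_mul (hyK y K hK i) (hd3' i hi.2 s s'
              (le_trans hs (le_trans (min_le_right _ _) (min_le_right _ _)))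
              (le_trans hs' (le_trans (min_le_right _ _) (min_le_right _ _)))) (abs_nonneg _)
              (hK0 y K hK)
        _ ≤ ∑ i ∈ S, K * (a / (2 * (S.card + 1))) := by
            refine Finset.sum_le_sum_of_subset_of_nonneg ?_ fun _ _ _ =>
              mul_nonneg (hK0 y K hK) hη.le
            intro i hi
            exact (Finset.mem_filter.mp hi).2
        _ = S.card * (K * (a / (2 * (S.card + 1)))) := by
            rw [Finset.sum_const, nsmul_eq_mul]
        _ = K * (a / 2) * (S.card / (S.card + 1)) := by field_simp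
        _ ≤ K * (a / 2) * 1 := by
            refine mul_le_mul_of_nonneg_left ?_ (mul_nonneg (hK0 y K hK) (by positivity))
            rw [div_le_one (by positivity)]
            linarith
        _ = K * (a / 2) := mul_one _
    rw [hsplit s, hsplit s']
    have h1 := hbound s hs
    have h2 := hbound s' hs'
    have h3 : K * (1 / 2) ^ (k0 + 1) ≤ K * (a / 4) := by
      refine mul_le_mul_of_nonneg_left ?_ (hK0 y K hK)
      rw [pow_succ]
      linarith
    rw [abs_le] at h1 h2 hfin ⊢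
    constructor <;> nlinarith [h1.1, h1.2, h2.1, h2.2, hfin.1, hfin.2]
  · intro t ht
    by_cases htt : t = t₀
    · subst htt
      refine ⟨1, one_pos, fun d hd => ?_⟩
      obtain ⟨n, hn⟩ := pow_unbounded_of_one_lt (4 / d) (by norm_num : (1 : ℝ) < 4)
      have hpr : Nat.pair (Nat.unpair n).1 (Nat.unpair n).2 = n := Nat.pair_unpair n
      obtain ⟨s, hs, hsz⟩ := pt hv hI n (z := 2 + 1 / 8) (by norm_num) (by norm_num)
      obtain ⟨s', hs', hsz'⟩ := pt hv hI n (z := 2 + 5 / 8) (by norm_num) (by norm_num)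
      have hclose : ∀ z : ℝ, 0 ≤ z → z ≤ 4 → |t + v * (z / 4 ^ (n + 1)) - t| ≤ d := by
        intro z h0 h4
        rw [add_sub_cancel_left, abs_mul, abs_of_nonneg (by positivity : (0 : ℝ) ≤ z / 4 ^ (n + 1))]
        have h1 : z / 4 ^ (n + 1) ≤ d := by
          rw [div_le_iff₀ (by positivity)]
          rw [div_lt_iff₀ hd] at hn
          have h2 : (4 : ℝ) ^ n ≤ 4 ^ (n + 1) := pow_le_pow_right₀ (by norm_num) (by omega)
          nlinarith
        calc |v| * (z / 4 ^ (n + 1)) ≤ 1 * (z / 4 ^ (n + 1)) :=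
              mul_le_mul_of_nonneg_right hv1 (by positivity)
          _ ≤ d := by rw [one_mul]; exact h1
      refine ⟨⟨Nat.unpair n, 0⟩, s, s', by rw [hs]; exact hclose _ (by norm_num) (by norm_num),
        by rw [hs']; exact hclose _ (by norm_num) (by norm_num), ?_⟩
      rw [ContinuousMap.add_apply, ContinuousMap.add_apply]
      have e1 : R t v (blkB ⟨Nat.unpair n, 0⟩) (digB ⟨Nat.unpair n, 0⟩) s = 1 := by
        have : blkB ⟨Nat.unpair n, 0⟩ = n := hpr
        rw [this, R_apply, hsz, cut_eq_one (by norm_num) (by norm_num), one_mul]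
        have h0 : digB ⟨Nat.unpair n, 0⟩ = 0 := rfl
        rw [h0]
        exact w_one (by norm_num) (by norm_num)
      have e2 : R t v (blkB ⟨Nat.unpair n, 0⟩) (digB ⟨Nat.unpair n, 0⟩) s' = -1 := by
        have : blkB ⟨Nat.unpair n, 0⟩ = n := hpr
        rw [this, R_apply, hsz', cut_eq_one (by norm_num) (by norm_num), one_mul]
        have h0 : digB ⟨Nat.unpair n, 0⟩ = 0 := rfl
        rw [h0]
        exact w_neg (by norm_num) (by norm_num)
      rw [e1, e2]
      have h1 := psiB_nonneg C ⟨Nat.unpair n, 0⟩ s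
      have h2 := psiB_nonneg C ⟨Nat.unpair n, 0⟩ s'
      have h3 := psiB_le C ⟨Nat.unpair n, 0⟩ s
      have h4 := psiB_le C ⟨Nat.unpair n, 0⟩ s'
      refine le_trans ?_ (le_abs_self _)
      linarith
    · obtain ⟨d1, hd1, N1, hN1⟩ := near_nonzero (t₀ := t₀) (v := v) (t := t) hv htt
      have ht2 := ht
      rw [hMC] at ht2
      obtain ⟨k, hk⟩ := mem_iUnion.mp ht2
      have ht1 := hM ht
      refine ⟨(1 / 2) ^ (k + 2), by positivity, fun d hd => ?_⟩
      -- a point outside `C k` close to `t`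
      obtain ⟨x, hx0, hx1, hxt, hxC⟩ : ∃ x : ℝ, 0 ≤ x ∧ x ≤ 1 ∧ |x - t| ≤ min d d1 ∧ x ∉ C k := by
        by_contra hc
        push Not at hc
        have hdm : 0 < min d d1 := lt_min hd hd1
        have hsub : Ioo (t - min d d1) (t + min d d1) ∩ Ioo 0 1 ⊆ M := by
          rintro x ⟨hx1, hx2⟩
          rw [hMC]
          refine mem_iUnion.mpr ⟨k, hc x hx2.1.le hx2.2.le ?_⟩
          rw [abs_le]
          constructor <;> linarith [hx1.1, hx1.2]
        have hopen : IsOpen (Ioo (t - min d d1) (t + min d d1) ∩ Ioo (0 : ℝ) 1) :=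
          isOpen_Ioo.inter isOpen_Ioo
        have h1 := hopen.subset_interior_iff.mpr hsub
        rw [hint] at h1
        have hne : (Ioo (t - min d d1) (t + min d d1) ∩ Ioo (0 : ℝ) 1).Nonempty := by
          rw [Ioo_inter_Ioo, nonempty_Ioo]
          exact max_lt (lt_min (by linarith) (by linarith [ht1.2]))
            (lt_min (by linarith [ht1.1]) one_pos)
        obtain ⟨x, hx⟩ := hne
        exact h1 hx
      have hne : (C k).Nonempty := ⟨t, hk⟩
      have hpos : 0 < Metric.infDist x (C k) := ((hC k).notMem_iff_infDist_pos hne).mp hxC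
      obtain ⟨l0, hl0⟩ := pow_unbounded_of_one_lt ((5 / 2) / Metric.infDist x (C k))
        (by norm_num : (1 : ℝ) < 4)
      set l := max l0 N1 with hl
      have h5 : (5 / 2) / 4 ^ l ≤ Metric.infDist x (C k) := by
        rw [div_le_iff₀ (by positivity)]
        rw [div_lt_iff₀ hpos] at hl0
        have h3 : (4 : ℝ) ^ l0 ≤ 4 ^ l := pow_le_pow_right₀ (by norm_num) (le_max_left _ _)
        nlinarith
      -- intermediate value theorem
      have hcont : ContinuousOn (fun θ : ℝ => Metric.infDist (t + θ * (x - t)) (C k)) (Icc 0 1) := by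
        apply Continuous.continuousOn
        exact (Metric.continuous_infDist_pt _).comp (by fun_prop)
      have hivt := intermediate_value_Icc (zero_le_one' ℝ) hcont
      have hmem : (5 / 2) / 4 ^ l ∈ Icc (Metric.infDist (t + 0 * (x - t)) (C k))
          (Metric.infDist (t + 1 * (x - t)) (C k)) := by
        constructor
        · rw [zero_mul, add_zero, Metric.infDist_zero_of_mem hk]
          positivity
        · rw [one_mul, add_sub_cancel]
          exact h5
      obtain ⟨θ, hθ, hθe⟩ := hivt hmem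
      simp only at hθe
      have hx'0 : t + θ * (x - t) ∈ Icc (0 : ℝ) 1 := by
        constructor
        · nlinarith [hθ.1, hθ.2, ht1.1, ht1.2]
        · nlinarith [hθ.1, hθ.2, ht1.1, ht1.2]
      have hx't : |(t + θ * (x - t)) - t| ≤ min d d1 := by
        rw [add_sub_cancel_left, abs_mul, abs_of_nonneg hθ.1]
        calc θ * |x - t| ≤ 1 * |x - t| := mul_le_mul_of_nonneg_right hθ.2 (abs_nonneg _)
          _ ≤ _ := by rw [one_mul]; exact hxt
      refine ⟨⟨(k, l), 0⟩, ⟨_, hx'0⟩, ⟨t, ht1⟩, le_trans hx't (min_le_left _ _), by simp; exact hd.le,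
        ?_⟩
      have hbig : N1 ≤ blkB ⟨(k, l), 0⟩ := by
        unfold blkB
        have h6 := Nat.right_le_pair k l
        have h7 : N1 ≤ l := le_max_right _ _
        simp only
        omega
      rw [ContinuousMap.add_apply, ContinuousMap.add_apply,
        hN1 _ hbig _ ⟨_, hx'0⟩ (le_trans hx't (min_le_right _ _)),
        hN1 _ hbig _ ⟨t, ht1⟩ (by simp; exact hd1.le), zero_add, zero_add, psiB_apply, psiB_apply]
      have h8 : (((⟨(k, l), 0⟩ : Idx).2 : Fin _) : ℕ) = 0 := rfl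
      rw [if_pos h8, if_pos h8]
      simp only
      rw [hθe, Metric.infDist_zero_of_mem hk, mul_zero, cut_eq_zero (Or.inl zero_le_one)]
      have h9 : (4 : ℝ) ^ l * (5 / 2 / 4 ^ l) = 5 / 2 := by field_simp
      rw [h9, cut_eq_one (by norm_num) (by norm_num), mul_one, mul_zero, sub_zero,
        abs_of_pos (by positivity)]
  · intro m
    refine ⟨fun j => ⟨(0, m), ⟨j, ?_⟩⟩, ?_, Nat.pair 0 m, fun j => rfl⟩
    · have h6 := Nat.right_le_pair 0 m
      have := j.2
      simp only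
      omega
    · intro j j' h
      simp only [Sigma.mk.injEq, heq_eq_eq, Fin.mk.injEq, true_and] at h
      exact Fin.ext h

end Pool.Agent.Q320.OS
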