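import Mathlib

/-! A lower bound for projections onto subspaces of `C(K)` that contain well placed copies
of `ℓ¹(n)`. -/

set_option autoImplicit false

namespace Pool.Agent.Q320.OS

open Finset Complex

variable {n : ℕ}

lemma sum_prod_sign {R : Type*} [CommRing R] (a : Fin n → R) :
    ∑ σ : Fin n → ℤˣ, ∏ j, (1 + (((σ j : ℤ)) : R) * a j) = 2 ^ n := by
  have h := Finset.prod_univ_sum (fun _ : Fin n => (Finset.univ : Finset ℤˣ))
    (fun j (u : ℤˣ) => (1 + ((u : ℤ) : R) * a j))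
  rw [Fintype.piFinset_univ] at h
  rw [← h]
  have h2 : ∀ j : Fin n, ∑ u : ℤˣ, (1 + ((u : ℤ) : R) * a j) = 2 := by
    intro j
    rw [UnitsInt.univ, Finset.sum_pair (by decide)]
    push_cast
    ring
  simp only [h2, Finset.prod_const, Finset.card_univ, Fintype.card_fin]

lemma sum_sign_prod {R : Type*} [CommRing R] (a : Fin n → R) (k : Fin n) :
    ∑ σ : Fin n → ℤˣ, ((σ k : ℤ) : R) * ∏ j, (1 + ((σ j : ℤ) : R) * a j) = 2 ^ n * a k := by
  classical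
  have h := Finset.prod_univ_sum (fun _ : Fin n => (Finset.univ : Finset ℤˣ))
    (fun j (u : ℤˣ) => (if j = k then ((u : ℤ) : R) else 1) * (1 + ((u : ℤ) : R) * a j))
  rw [Fintype.piFinset_univ] at h
  have h3 : ∀ σ : Fin n → ℤˣ, ((σ k : ℤ) : R) * ∏ j, (1 + ((σ j : ℤ) : R) * a j) =
      ∏ j, (if j = k then ((σ j : ℤ) : R) else 1) * (1 + ((σ j : ℤ) : R) * a j) := by
    intro σ
    rw [Finset.prod_mul_distrib]
    congr 1
    rw [Finset.prod_ite_eq' Finset.univ k (fun j => ((σ j : ℤ) : R))]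
    simp
  rw [Finset.sum_congr rfl (fun σ _ => h3 σ), ← h]
  have h2 : ∀ j : Fin n, ∑ u : ℤˣ, (if j = k then ((u : ℤ) : R) else 1) * (1 + ((u : ℤ) : R) * a j)
      = 2 * (if j = k then a k else 1) := by
    intro j
    rw [UnitsInt.univ, Finset.sum_pair (by decide)]
    by_cases hj : j = k
    · subst hj
      simp only [if_true]
      push_cast
      ring
    · simp only [if_neg hj]
      push_cast
      ring
  simp only [h2, Finset.prod_mul_distrib, Finset.prod_const, Finset.card_univ, Fintype.card_fin]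
  rw [Finset.prod_ite_eq' Finset.univ k (fun _ => a k)]
  simp

/-- A bounded function on the cube, with large first Fourier coefficients. -/
lemma exists_cube (hn : 0 < n) : ∃ h : (Fin n → ℤˣ) → ℝ, (∀ ρ, |h ρ| ≤ 1) ∧
    ∀ k, ∑ ρ, ((ρ k : ℤ) : ℝ) * h ρ = 2 ^ n / (2 * Real.sqrt n) := by
  have hn' : (0 : ℝ) < n := by exact_mod_cast hn
  have hs : 0 < Real.sqrt n := Real.sqrt_pos.mpr hn'
  obtain ⟨b, hb⟩ : ∃ b : ℝ, b = 1 / Real.sqrt n := ⟨_, rfl⟩
  set a : ℂ := I * (b : ℂ) with ha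
  refine ⟨fun ρ => (∏ j, (1 + ((ρ j : ℤ) : ℂ) * a)).im / 2, fun ρ => ?_, fun k => ?_⟩
  · have h1 : ∀ j, ‖(1 + ((ρ j : ℤ) : ℂ) * a)‖ ^ 2 = 1 + 1 / n := by
      intro j
      rw [← Complex.normSq_eq_norm_sq, Complex.normSq_apply]
      have hr : (1 + ((ρ j : ℤ) : ℂ) * a).re = 1 := by
        rw [ha]; simp
      have hi : (1 + ((ρ j : ℤ) : ℂ) * a).im = ((ρ j : ℤ) : ℝ) * (1 / Real.sqrt n) := by
        rw [ha, ← hb]; simp
      rw [hr, hi]
      have h2 : (((ρ j : ℤ) : ℝ)) * ((ρ j : ℤ) : ℝ) = 1 := by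
        rcases Int.units_eq_one_or (ρ j) with h | h <;> rw [h] <;> norm_num
      have h3 : (1 / Real.sqrt n) * (1 / Real.sqrt n) = 1 / n := by
        rw [div_mul_div_comm, Real.mul_self_sqrt hn'.le]; norm_num
      calc (1 : ℝ) * 1 + ((ρ j : ℤ) : ℝ) * (1 / Real.sqrt n) * (((ρ j : ℤ) : ℝ) * (1 / Real.sqrt n))
          = 1 + (((ρ j : ℤ) : ℝ) * ((ρ j : ℤ) : ℝ)) * ((1 / Real.sqrt n) * (1 / Real.sqrt n)) := by
            ring
        _ = 1 + 1 / n := by rw [h2, h3, one_mul]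
    have h2 : ‖∏ j, (1 + ((ρ j : ℤ) : ℂ) * a)‖ ^ 2 = (1 + 1 / n) ^ n := by
      rw [norm_prod, ← Finset.prod_pow]
      rw [Finset.prod_congr rfl (fun j _ => h1 j)]
      simp
    have h3 : ((1 : ℝ) + 1 / n) ^ n ≤ 4 := by
      have h4 : (1 : ℝ) + 1 / n ≤ Real.exp (1 / n) := by
        have := Real.add_one_le_exp ((1 : ℝ) / n)
        linarith
      calc ((1 : ℝ) + 1 / n) ^ n ≤ (Real.exp (1 / n)) ^ n :=
            pow_le_pow_left₀ (by positivity) h4 n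
        _ = Real.exp 1 := by
            rw [← Real.exp_nat_mul]
            congr 1
            field_simp
        _ ≤ 4 := by
            have := Real.exp_one_lt_d9
            linarith
    have h5 : ‖∏ j, (1 + ((ρ j : ℤ) : ℂ) * a)‖ ≤ 2 := by
      have h6 : ‖∏ j, (1 + ((ρ j : ℤ) : ℂ) * a)‖ ^ 2 ≤ 2 ^ 2 := by rw [h2]; linarith
      exact le_of_sq_le_sq h6 (by norm_num)
    have h7 := Complex.abs_im_le_norm (∏ j, (1 + ((ρ j : ℤ) : ℂ) * a))
    rw [abs_div, abs_two]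
    linarith
  · have h1 := sum_sign_prod (R := ℂ) (n := n) (fun _ => a) k
    have h2 := congrArg Complex.im h1
    rw [Complex.im_sum] at h2
    have h3 : ∀ σ : Fin n → ℤˣ, (((σ k : ℤ) : ℂ) * ∏ j, (1 + ((σ j : ℤ) : ℂ) * a)).im =
        ((σ k : ℤ) : ℝ) * (∏ j, (1 + ((σ j : ℤ) : ℂ) * a)).im := by
      intro σ
      have : (((σ k : ℤ) : ℂ)) = (((σ k : ℤ) : ℝ) : ℂ) := by push_cast; rfl
      rw [this, Complex.im_ofReal_mul]
    rw [Finset.sum_congr rfl (fun σ _ => h3 σ)] at h2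
    have h4 : ((2 : ℂ) ^ n * a).im = 2 ^ n * (1 / Real.sqrt n) := by
      have : ((2 : ℂ) ^ n) = (((2 : ℝ) ^ n : ℝ) : ℂ) := by push_cast; rfl
      rw [this, Complex.im_ofReal_mul, ha, ← hb]
      simp
    rw [h4] at h2
    calc ∑ ρ : Fin n → ℤˣ, ((ρ k : ℤ) : ℝ) * ((∏ j, (1 + ((ρ j : ℤ) : ℂ) * a)).im / 2)
        = (∑ ρ : Fin n → ℤˣ, ((ρ k : ℤ) : ℝ) * (∏ j, (1 + ((ρ j : ℤ) : ℂ) * a)).im) / 2 := by
          rw [Finset.sum_div]
          refine Finset.sum_congr rfl fun ρ _ => ?_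
          ring
      _ = _ := by rw [h2]; field_simp

theorem proj_bound {K : Type*} [TopologicalSpace K] [CompactSpace K]
    (X : Submodule ℝ C(K, ℝ)) (P : C(K, ℝ) →L[ℝ] C(K, ℝ)) (hP : ∀ f, P f ∈ X)
    (hP' : ∀ f ∈ X, P f = f) (hn : 0 < n) (F : Fin n → C(K, ℝ)) (hF : ∀ j, F j ∈ X)
    (hF2 : ∀ j, ‖F j‖ ≤ 2) (c : Fin n → (C(K, ℝ) →L[ℝ] ℝ))
    (hc : ∀ i j, c i (F j) = if i = j then 1 else 0)
    (hcX : ∀ f ∈ X, ∑ j, |c j f| ≤ 2 * ‖f‖) : Real.sqrt n ≤ 8 * ‖P‖ := by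
  classical
  obtain ⟨h, habs, hsum⟩ := exists_cube hn
  have hn' : (0 : ℝ) < n := by exact_mod_cast hn
  have hs : 0 < Real.sqrt n := Real.sqrt_pos.mpr hn'
  set g : (Fin n → ℤˣ) → C(K, ℝ) := fun σ =>
    (1 / 2 ^ n : ℝ) • ∏ j, (1 + ((σ j : ℤ) : C(K, ℝ)) * ((1 / 2 : ℝ) • F j)) with hg
  have hg1 : ∑ σ, g σ = 1 := by
    rw [hg]
    simp only
    rw [← Finset.smul_sum, sum_prod_sign]
    ext x
    have h20 : (2 : C(K, ℝ)) x = 2 := rfl
    simp [h20]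
  have hgk : ∀ k, ∑ σ : Fin n → ℤˣ, ((σ k : ℤ) : ℝ) • g σ = (1 / 2 : ℝ) • F k := by
    intro k
    have h1 := sum_sign_prod (R := C(K, ℝ)) (fun j => ((1 / 2 : ℝ) • F j)) k
    ext x
    have h2 := congrArg (fun f : C(K, ℝ) => f x) h1
    simp only [ContinuousMap.coe_sum, Finset.sum_apply, ContinuousMap.mul_apply,
      ContinuousMap.smul_apply, smul_eq_mul] at h2 ⊢
    rw [hg]
    simp only [ContinuousMap.smul_apply, smul_eq_mul]
    have h20 : (2 : C(K, ℝ)) x = 2 := rfl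
    have h3 : ((2 : C(K, ℝ)) ^ n) x = 2 ^ n := by simp [h20]
    rw [h3] at h2
    have h4 : ∀ σ : Fin n → ℤˣ, (((σ k : ℤ) : C(K, ℝ))) x = ((σ k : ℤ) : ℝ) := by
      intro σ; simp
    calc _ = (1 / 2 ^ n : ℝ) * ∑ σ : Fin n → ℤˣ, (((σ k : ℤ) : C(K, ℝ))) x *
          (∏ j, (1 + ((σ j : ℤ) : C(K, ℝ)) * ((1 / 2 : ℝ) • F j))) x := by
          rw [Finset.mul_sum]
          refine Finset.sum_congr rfl fun σ _ => ?_
          rw [h4]
          ring
      _ = _ := by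
          rw [h2]
          field_simp
  have hgnn : ∀ σ x, 0 ≤ g σ x := by
    intro σ x
    rw [hg]
    simp only [ContinuousMap.smul_apply, smul_eq_mul, ContinuousMap.coe_prod, Finset.prod_apply]
    refine mul_nonneg (by positivity) (Finset.prod_nonneg fun j _ => ?_)
    simp only [ContinuousMap.add_apply, ContinuousMap.one_apply, ContinuousMap.mul_apply,
      ContinuousMap.smul_apply, smul_eq_mul]
    have h1 : |F j x| ≤ 2 := le_trans (by
      have := ContinuousMap.norm_coe_le_norm (F j) x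
      rwa [Real.norm_eq_abs] at this) (hF2 j)
    have h2 := abs_le.mp h1
    have h4 : (((σ j : ℤ) : C(K, ℝ))) x = ((σ j : ℤ) : ℝ) := by simp
    rw [h4]
    rcases Int.units_eq_one_or (σ j) with h | h <;> rw [h] <;> push_cast <;> nlinarith [h2.1, h2.2]
  have hv : ∀ τ : Fin n → ℤˣ, ‖∑ σ : Fin n → ℤˣ, h (τ * σ) • g σ‖ ≤ 1 := by
    intro τ
    rw [ContinuousMap.norm_le _ zero_le_one]
    intro x
    rw [Real.norm_eq_abs]
    simp only [ContinuousMap.coe_sum, Finset.sum_apply, ContinuousMap.smul_apply, smul_eq_mul]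
    calc |∑ σ : Fin n → ℤˣ, h (τ * σ) * g σ x| ≤ ∑ σ : Fin n → ℤˣ, |h (τ * σ) * g σ x| :=
          Finset.abs_sum_le_sum_abs _ _
      _ ≤ ∑ σ : Fin n → ℤˣ, g σ x := by
          refine Finset.sum_le_sum fun σ _ => ?_
          rw [abs_mul, abs_of_nonneg (hgnn σ x)]
          calc |h (τ * σ)| * g σ x ≤ 1 * g σ x :=
                mul_le_mul_of_nonneg_right (habs _) (hgnn σ x)
            _ = g σ x := one_mul _
      _ = 1 := by
          have := congrArg (fun f : C(K, ℝ) => f x) hg1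
          simpa using this
  set Q : (Fin n → ℤˣ) → Fin n → ℝ := fun σ j => c j (P (g σ)) with hQ
  have hQk : ∀ j, ∑ σ : Fin n → ℤˣ, ((σ j : ℤ) : ℝ) * Q σ j = 1 / 2 := by
    intro j
    have h1 : P ((1 / 2 : ℝ) • F j) = (1 / 2 : ℝ) • F j := hP' _ (X.smul_mem _ (hF j))
    have h2 : c j (P (∑ σ : Fin n → ℤˣ, ((σ j : ℤ) : ℝ) • g σ)) = 1 / 2 := by
      rw [hgk, h1, map_smul, hc]
      simp
    rw [map_sum, map_sum] at h2
    rw [← h2]
    refine Finset.sum_congr rfl fun σ _ => ?_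
    rw [map_smul, map_smul, smul_eq_mul]
  -- upper bound
  have hup : ∑ τ : Fin n → ℤˣ, ∑ j, ((τ j : ℤ) : ℝ) * c j (P (∑ σ : Fin n → ℤˣ, h (τ * σ) • g σ))
      ≤ 2 ^ n * (2 * ‖P‖) := by
    have hcard : (Finset.univ : Finset (Fin n → ℤˣ)).card = 2 ^ n := by
      rw [Finset.card_univ, Fintype.card_fun, Fintype.card_units_int, Fintype.card_fin]
    have h1 : ∀ τ ∈ (Finset.univ : Finset (Fin n → ℤˣ)),
        ∑ j, ((τ j : ℤ) : ℝ) * c j (P (∑ σ : Fin n → ℤˣ, h (τ * σ) • g σ)) ≤ 2 * ‖P‖ := by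
      intro τ _
      calc ∑ j, ((τ j : ℤ) : ℝ) * c j (P (∑ σ : Fin n → ℤˣ, h (τ * σ) • g σ))
          ≤ ∑ j, |c j (P (∑ σ : Fin n → ℤˣ, h (τ * σ) • g σ))| := by
            refine Finset.sum_le_sum fun j _ => ?_
            refine le_trans (le_abs_self _) ?_
            rw [abs_mul]
            rcases Int.units_eq_one_or (τ j) with h | h <;> rw [h] <;> simp
        _ ≤ 2 * ‖P (∑ σ : Fin n → ℤˣ, h (τ * σ) • g σ)‖ := hcX _ (hP _)
        _ ≤ 2 * (‖P‖ * 1) := by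
            have := P.le_opNorm (∑ σ : Fin n → ℤˣ, h (τ * σ) • g σ)
            have h2 := mul_le_mul_of_nonneg_left (hv τ) (norm_nonneg P)
            linarith
        _ = 2 * ‖P‖ := by ring
    have h2 := Finset.sum_le_card_nsmul _ _ _ h1
    rw [hcard, nsmul_eq_mul] at h2
    push_cast at h2
    exact h2
  have heq : ∑ τ : Fin n → ℤˣ, ∑ j, ((τ j : ℤ) : ℝ) * c j (P (∑ σ : Fin n → ℤˣ, h (τ * σ) • g σ))
      = ∑ j : Fin n, (2 ^ n / (2 * Real.sqrt n)) * (1 / 2) := by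
    rw [Finset.sum_comm]
    refine Finset.sum_congr rfl fun j _ => ?_
    have h1 : ∀ τ : Fin n → ℤˣ, ((τ j : ℤ) : ℝ) * c j (P (∑ σ : Fin n → ℤˣ, h (τ * σ) • g σ)) =
        ∑ σ : Fin n → ℤˣ, ((τ j : ℤ) : ℝ) * (h (τ * σ) * Q σ j) := by
      intro τ
      rw [map_sum, map_sum, Finset.mul_sum]
      refine Finset.sum_congr rfl fun σ _ => ?_
      rw [map_smul, map_smul, smul_eq_mul]
    rw [Finset.sum_congr rfl (fun τ _ => h1 τ), Finset.sum_comm]
    have h2 : ∀ σ : Fin n → ℤˣ, ∑ τ : Fin n → ℤˣ, ((τ j : ℤ) : ℝ) * (h (τ * σ) * Q σ j) =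
        (2 ^ n / (2 * Real.sqrt n)) * (((σ j : ℤ) : ℝ) * Q σ j) := by
      intro σ
      have h3 : ∑ τ : Fin n → ℤˣ, ((τ j : ℤ) : ℝ) * h (τ * σ) =
          ∑ ρ : Fin n → ℤˣ, ((σ j : ℤ) : ℝ) * (((ρ j : ℤ) : ℝ) * h ρ) := by
        refine Fintype.sum_equiv (Equiv.mulRight σ) _ _ fun τ => ?_
        simp only [Equiv.coe_mulRight, Pi.mul_apply, Units.val_mul]
        have h4 : (((σ j : ℤ) : ℝ)) * ((σ j : ℤ) : ℝ) = 1 := by
          rcases Int.units_eq_one_or (σ j) with h | h <;> rw [h] <;> norm_num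
        push_cast
        calc ((τ j : ℤ) : ℝ) * h (τ * σ) = (((σ j : ℤ) : ℝ) * ((σ j : ℤ) : ℝ)) *
              (((τ j : ℤ) : ℝ) * h (τ * σ)) := by rw [h4, one_mul]
          _ = _ := by ring
      calc ∑ τ : Fin n → ℤˣ, ((τ j : ℤ) : ℝ) * (h (τ * σ) * Q σ j)
          = (∑ τ : Fin n → ℤˣ, ((τ j : ℤ) : ℝ) * h (τ * σ)) * Q σ j := by
            rw [Finset.sum_mul]
            refine Finset.sum_congr rfl fun τ _ => ?_
            ring
        _ = _ := by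
            rw [h3, ← Finset.mul_sum, hsum]
            ring
    rw [Finset.sum_congr rfl (fun σ _ => h2 σ), ← Finset.mul_sum, hQk]
  rw [heq, Finset.sum_const, Finset.card_univ, Fintype.card_fin, nsmul_eq_mul] at hup
  have h2n : (0 : ℝ) < 2 ^ n := by positivity
  have h3 : (n : ℝ) * (2 ^ n / (2 * Real.sqrt n) * (1 / 2)) = 2 ^ n * (Real.sqrt n / 4) := by
    have h4 : (n : ℝ) = Real.sqrt n * Real.sqrt n := (Real.mul_self_sqrt hn'.le).symm
    calc (n : ℝ) * (2 ^ n / (2 * Real.sqrt n) * (1 / 2))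
        = (Real.sqrt n * Real.sqrt n) * (2 ^ n / (2 * Real.sqrt n) * (1 / 2)) := by rw [← h4]
      _ = 2 ^ n * (Real.sqrt n / 4) := by field_simp; ring
  rw [h3] at hup
  have h5 := le_of_mul_le_mul_left hup h2n
  linarith

end Pool.Agent.Q320.OS
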