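import Pool.Agent.Q320.OS.Abs

/-! Localised Rademacher like functions on `[0,1]`. -/

set_option autoImplicit false

namespace Pool.Agent.Q320.OS

open Set

/-- A 1-periodic function, equal to `1` on `[1/8, 1/4]` and to `-1` on `[5/8, 3/4]`. -/
noncomputable def w (u : ℝ) : ℝ := max (-1) (min 1 (2 * Real.sin (2 * Real.pi * u)))

lemma w_cont : Continuous w := by unfold w; fun_prop

lemma w_abs (u : ℝ) : |w u| ≤ 1 := by
  unfold w
  rw [abs_le]
  exact ⟨le_max_left _ _, max_le (by norm_num) (min_le_left _ _)⟩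

lemma w_int (u : ℝ) (k : ℤ) : w (k + u) = w u := by
  unfold w
  have : 2 * Real.pi * (k + u) = 2 * Real.pi * u + k * (2 * Real.pi) := by ring
  rw [this, Real.sin_add_int_mul_two_pi]

lemma sin_ge {θ : ℝ} (h1 : Real.pi / 4 ≤ θ) (h2 : θ ≤ Real.pi / 2) : 1 / 2 ≤ Real.sin θ := by
  have hpi := Real.pi_pos
  have h3 : Real.sin (Real.pi / 6) ≤ Real.sin θ :=
    Real.sin_le_sin_of_le_of_le_pi_div_two (by linarith) h2 (by linarith)
  rw [Real.sin_pi_div_six] at h3
  exact h3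

lemma w_one {u : ℝ} (h1 : 1 / 8 ≤ u) (h2 : u ≤ 1 / 4) : w u = 1 := by
  have hpi := Real.pi_pos
  have h := sin_ge (θ := 2 * Real.pi * u) (by nlinarith) (by nlinarith)
  unfold w
  rw [min_eq_left (by linarith), max_eq_right (by norm_num)]

lemma w_neg {u : ℝ} (h1 : 5 / 8 ≤ u) (h2 : u ≤ 3 / 4) : w u = -1 := by
  have hpi := Real.pi_pos
  have h := sin_ge (θ := 2 * Real.pi * u - Real.pi) (by nlinarith) (by nlinarith)
  rw [Real.sin_sub_pi] at h
  unfold w
  rw [max_eq_left]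
  exact le_trans (min_le_right _ _) (by linarith)

lemma pattern (N : ℕ) : ∀ s : ℕ → ℝ, (∀ j, s j = 1 ∨ s j = -1) →
    ∃ x : ℝ, 0 ≤ x ∧ x ≤ 1 ∧ ∀ j < N, w (8 ^ j * x) = s j := by
  induction N with
  | zero => intro s _; exact ⟨0, le_rfl, zero_le_one, fun j hj => absurd hj (by omega)⟩
  | succ N ih =>
    intro s hs
    obtain ⟨x', h0, h1, hx'⟩ := ih (fun j => s (j + 1)) (fun j => hs (j + 1))
    obtain ⟨d, hd1, hd2, hd3⟩ : ∃ d : ℕ, d ≤ 5 ∧
        (∀ y : ℝ, 0 ≤ y → y ≤ 1 → w ((d + y) / 8) = s 0) ∧ True := by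
      rcases hs 0 with h | h
      · refine ⟨1, by norm_num, fun y hy0 hy1 => ?_, trivial⟩
        rw [h]
        push_cast
        exact w_one (by linarith) (by linarith)
      · refine ⟨5, by norm_num, fun y hy0 hy1 => ?_, trivial⟩
        rw [h]
        push_cast
        exact w_neg (by linarith) (by linarith)
    have hd1' : (d : ℝ) ≤ 5 := by exact_mod_cast hd1
    have hd0 : (0 : ℝ) ≤ d := Nat.cast_nonneg d
    refine ⟨(d + x') / 8, by positivity, by linarith, fun j hj => ?_⟩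
    cases j with
    | zero => rw [pow_zero, one_mul]; exact hd2 x' h0 h1
    | succ j =>
      have h2 : (8 : ℝ) ^ (j + 1) * ((d + x') / 8) = ((8 ^ j * d : ℤ) : ℝ) + 8 ^ j * x' := by
        push_cast
        rw [pow_succ]
        ring
      rw [h2, w_int]
      exact hx' j (by omega)

/-- A cutoff: `1` on `[2,3]`, `0` outside `(1,4)`. -/
noncomputable def cut (z : ℝ) : ℝ := max 0 (min 1 (min (z - 1) (4 - z)))

lemma cut_cont : Continuous cut := by unfold cut; fun_prop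

lemma cut_nonneg (z : ℝ) : 0 ≤ cut z := le_max_left _ _

lemma cut_le_one (z : ℝ) : cut z ≤ 1 := max_le zero_le_one (min_le_left _ _)

lemma cut_eq_one {z : ℝ} (h1 : 2 ≤ z) (h2 : z ≤ 3) : cut z = 1 := by
  unfold cut
  rw [min_eq_left (le_min (by linarith) (by linarith)), max_eq_right zero_le_one]

lemma cut_eq_zero {z : ℝ} (h : z ≤ 1 ∨ 4 ≤ z) : cut z = 0 := by
  unfold cut
  apply max_eq_left
  rcases h with h | h
  · exact le_trans (min_le_right _ _) (le_trans (min_le_left _ _) (by linarith))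
  · exact le_trans (min_le_right _ _) (le_trans (min_le_right _ _) (by linarith))

lemma cut_pos {z : ℝ} (h : 0 < cut z) : 1 < z ∧ z < 4 := by
  by_contra hc
  have : z ≤ 1 ∨ 4 ≤ z := by
    by_contra h'
    push Not at h'
    exact hc h'
  rw [cut_eq_zero this] at h
  exact lt_irrefl _ h

/-- The `j`th Rademacher like function in the `n`th cell between `t₀` and `t₀ + v`. -/
noncomputable def R (t₀ v : ℝ) (n j : ℕ) : C(Icc (0 : ℝ) 1, ℝ) where
  toFun x := cut (4 ^ (n + 1) * (((x : ℝ) - t₀) / v)) *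
    w (8 ^ j * (4 ^ (n + 1) * (((x : ℝ) - t₀) / v) - 2))
  continuous_toFun := by
    apply Continuous.mul
    · exact cut_cont.comp (by fun_prop)
    · exact w_cont.comp (by fun_prop)

lemma R_apply (t₀ v : ℝ) (n j : ℕ) (x : Icc (0 : ℝ) 1) :
    R t₀ v n j x = cut (4 ^ (n + 1) * (((x : ℝ) - t₀) / v)) *
      w (8 ^ j * (4 ^ (n + 1) * (((x : ℝ) - t₀) / v) - 2)) := rfl

lemma R_abs (t₀ v : ℝ) (n j : ℕ) (x : Icc (0 : ℝ) 1) :
    |R t₀ v n j x| ≤ cut (4 ^ (n + 1) * (((x : ℝ) - t₀) / v)) := by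
  rw [R_apply, abs_mul, abs_of_nonneg (cut_nonneg _)]
  calc _ ≤ cut (4 ^ (n + 1) * (((x : ℝ) - t₀) / v)) * 1 :=
        mul_le_mul_of_nonneg_left (w_abs _) (cut_nonneg _)
    _ = _ := mul_one _

lemma R_le_one (t₀ v : ℝ) (n j : ℕ) (x : Icc (0 : ℝ) 1) : |R t₀ v n j x| ≤ 1 :=
  le_trans (R_abs _ _ _ _ _) (cut_le_one _)

/-- The point with coordinate `z` in the cell `n`. -/
lemma pt {t₀ v : ℝ} (hv : v ≠ 0) (hI : ∀ u : ℝ, 0 ≤ u → u ≤ 1 → t₀ + v * u ∈ Icc (0 : ℝ) 1)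
    (n : ℕ) {z : ℝ} (h0 : 0 ≤ z) (h4 : z ≤ 4) :
    ∃ x : Icc (0 : ℝ) 1, (x : ℝ) = t₀ + v * (z / 4 ^ (n + 1)) ∧
      4 ^ (n + 1) * (((x : ℝ) - t₀) / v) = z := by
  have h4' : (4 : ℝ) ≤ 4 ^ (n + 1) := by
    calc (4 : ℝ) = 4 ^ 1 := (pow_one _).symm
      _ ≤ 4 ^ (n + 1) := pow_le_pow_right₀ (by norm_num) (by omega)
  refine ⟨⟨t₀ + v * (z / 4 ^ (n + 1)), hI _ (by positivity) ?_⟩, rfl, ?_⟩
  · rw [div_le_one (by positivity)]
    linarith
  · simp only
    field_simp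
    ring

lemma cut_other {m n : ℕ} (h : m ≠ n) {z : ℝ} (h1 : 1 ≤ z) (h4 : z ≤ 4) :
    cut (4 ^ (m + 1) * (z / 4 ^ (n + 1))) = 0 := by
  apply cut_eq_zero
  rcases lt_or_gt_of_ne h with h | h
  · left
    obtain ⟨k, rfl⟩ := Nat.exists_eq_add_of_lt h
    have : (4 : ℝ) ^ (m + 1) * (z / 4 ^ (m + k + 1 + 1)) = z / 4 ^ (k + 1) := by
      field_simp
      ring
    rw [this, div_le_one (by positivity)]
    calc z ≤ 4 ^ 1 := by linarith
      _ ≤ 4 ^ (k + 1) := pow_le_pow_right₀ (by norm_num) (by omega)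
  · right
    obtain ⟨k, rfl⟩ := Nat.exists_eq_add_of_lt h
    have : (4 : ℝ) ^ (n + k + 1 + 1) * (z / 4 ^ (n + 1)) = z * 4 ^ (k + 1) := by
      field_simp
      ring
    rw [this]
    have h5 : (4 : ℝ) ≤ 4 ^ (k + 1) := by
      calc (4 : ℝ) = 4 ^ 1 := (pow_one _).symm
        _ ≤ 4 ^ (k + 1) := pow_le_pow_right₀ (by norm_num) (by omega)
    nlinarith

theorem hφ {ι : Type*} (blk dig : ι → ℕ) (hinj : ∀ i i', blk i = blk i' → dig i = dig i' → i = i')
    {t₀ v : ℝ} (hv : v ≠ 0) (hI : ∀ u : ℝ, 0 ≤ u → u ≤ 1 → t₀ + v * u ∈ Icc (0 : ℝ) 1)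
    (y : ι →₀ ℝ) (n : ℕ) :
    ∃ x, ∑ i ∈ y.support, y i * R t₀ v (blk i) (dig i) x = A blk n y := by
  classical
  set s : ℕ → ℝ := fun j =>
    if 0 ≤ ∑ i ∈ y.support.filter (fun i => blk i = n ∧ dig i = j), y i then 1 else -1 with hs
  obtain ⟨xh, h0, h1, hx⟩ := pattern ((y.support.sup dig) + 1) s (by
    intro j
    rw [hs]
    simp only
    split_ifs
    · left; rfl
    · right; rfl)
  obtain ⟨x, hxv, hxz⟩ := pt hv hI n (z := 2 + xh) (by linarith) (by linarith)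
  refine ⟨x, ?_⟩
  unfold A
  refine Finset.sum_congr rfl fun i hi => ?_
  by_cases hb : blk i = n
  · rw [if_pos hb, R_apply, hb, hxz, cut_eq_one (by linarith) (by linarith), one_mul]
    have h2 : (2 : ℝ) + xh - 2 = xh := by ring
    rw [h2, hx (dig i) (Nat.lt_succ_of_le (Finset.le_sup hi))]
    have hfil : y.support.filter (fun i' => blk i' = n ∧ dig i' = dig i) = {i} := by
      ext i'
      simp only [Finset.mem_filter, Finset.mem_singleton]
      constructor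
      · rintro ⟨_, h3, h4⟩
        exact hinj i' i (by rw [h3, hb]) h4
      · rintro rfl
        exact ⟨hi, hb, rfl⟩
    rw [hs]
    simp only
    rw [hfil, Finset.sum_singleton]
    split_ifs with h3
    · rw [mul_one, abs_of_nonneg h3]
    · rw [mul_neg_one, abs_of_neg (by linarith)]
  · rw [if_neg hb, R_apply]
    have h3 : ((x : ℝ) - t₀) / v = (2 + xh) / 4 ^ (n + 1) := by
      rw [hxv]
      field_simp
      ring
    rw [h3, cut_other hb (by linarith) (by linarith)]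
    ring

end Pool.Agent.Q320.OS
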